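import Pool.Agent.Helper880_EX.Mt

/-!
# Arbitrary monodromy Lie algebras
-/

set_option autoImplicit false
set_option linter.unusedSectionVars false
set_option linter.unusedVariables false

open Matrix Module

namespace Pool.Agent.Helper880_EX

open Pool.Agent.Helper880_R3 (Ix Tot Tot_mul Tot_inj ib ib_apply ib_mul)
open Pool.Agent.Helper880_ZP
open Pool.Agent.Helper880_HC (mapQ mapQ_Tot mu_mul Tot_sub)

section rat
variable {B : Type} [Fintype B] [DecidableEq B]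

theorem mapQ_add (μ : ℂ →ₗ[ℚ] ℚ) (X Y : Matrix B B ℂ) : mapQ μ (X + Y) = mapQ μ X + mapQ μ Y := by
  ext i j
  show ((μ (X i j + Y i j) : ℚ) : ℂ) = ((μ (X i j) : ℚ) : ℂ) + ((μ (Y i j) : ℚ) : ℂ)
  rw [map_add, Rat.cast_add]

theorem mapQ_zero (μ : ℂ →ₗ[ℚ] ℚ) : mapQ μ (0 : Matrix B B ℂ) = 0 := by
  ext i j
  show ((μ 0 : ℚ) : ℂ) = 0
  rw [map_zero, Rat.cast_zero]

theorem mapQ_smul_rat (μ : ℂ →ₗ[ℚ] ℚ) (c : ℂ) {X : Matrix B B ℂ} (hX : ∀ a b, X a b ∈ K₀) :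
    mapQ μ (c • X) = ((μ c : ℚ) : ℂ) • X := by
  ext i j
  obtain ⟨q, hq⟩ := mem_K₀.1 (hX i j)
  show ((μ (c * X i j) : ℚ) : ℂ) = ((μ c : ℚ) : ℂ) * X i j
  rw [hq, mu_mul, Rat.cast_mul]

/-- rational spaces are stable -/
theorem mapQ_mem {W : Submodule ℂ (Matrix B B ℂ)} (hW : DefOver K₀ W) (μ : ℂ →ₗ[ℚ] ℚ) {Y : Matrix B B ℂ} (hY : Y ∈ W) :
    mapQ μ Y ∈ W := by
  have h1 : ∀ c : ℂ, mapQ μ (c • Y) ∈ W := by
    rw [hW] at hY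
    induction hY using Submodule.span_induction with
    | mem X hX =>
      intro c
      rw [mapQ_smul_rat μ c hX.2]
      exact W.smul_mem _ hX.1
    | zero => intro c; rw [smul_zero, mapQ_zero]; exact W.zero_mem
    | add X Y _ _ hX hY => intro c; rw [smul_add, mapQ_add]; exact W.add_mem (hX c) (hY c)
    | smul a X _ hX => intro c; rw [smul_smul]; exact hX _
  have h2 := h1 1
  rwa [one_smul] at h2

/-- the rational closure -/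
def ratcl (W : Submodule ℂ (Matrix B B ℂ)) : Submodule ℂ (Matrix B B ℂ) :=
  Submodule.span ℂ {X | ∃ (μ : ℂ →ₗ[ℚ] ℚ), ∃ Y ∈ W, X = mapQ μ Y}

theorem mapQ_K₀ (μ : ℂ →ₗ[ℚ] ℚ) (Y : Matrix B B ℂ) (a b : B) : mapQ μ Y a b ∈ K₀ := mem_K₀.2 ⟨_, rfl⟩

theorem ratcl_rat (W : Submodule ℂ (Matrix B B ℂ)) : DefOver K₀ (ratcl W) := by
  refine le_antisymm ?_ (Submodule.span_le.2 fun X hX => hX.1)
  refine Submodule.span_le.2 ?_
  rintro _ ⟨μ, Y, hY, rfl⟩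
  exact Submodule.subset_span ⟨Submodule.subset_span ⟨μ, Y, hY, rfl⟩, fun a b => mapQ_K₀ μ Y a b⟩

theorem ratcl_le {W V : Submodule ℂ (Matrix B B ℂ)} (h : W ≤ V) (hV : DefOver K₀ V) : ratcl W ≤ V := by
  refine Submodule.span_le.2 ?_
  rintro _ ⟨μ, Y, hY, rfl⟩
  exact mapQ_mem hV μ (h hY)

theorem le_ratcl (W : Submodule ℂ (Matrix B B ℂ)) : W ≤ ratcl W := by
  classical
  intro Y hY
  set b := Module.Basis.ofVectorSpace ℚ ℂ with hb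
  have hmem : ∀ i, mapQ (b.coord i) Y ∈ ratcl W := fun i => Submodule.subset_span ⟨_, Y, hY, rfl⟩
  set s : Finset _ := Finset.univ.biUnion fun p : B × B => (b.repr (Y p.1 p.2)).support with hs
  have hsum : Y = ∑ i ∈ s, b i • mapQ (b.coord i) Y := by
    ext p q
    rw [Matrix.sum_apply]
    have h1 := b.linearCombination_repr (Y p q)
    have h2 : (b.repr (Y p q)).support ⊆ s := fun i hi => Finset.mem_biUnion.2 ⟨(p, q), Finset.mem_univ _, hi⟩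
    have h3 := Finsupp.sum_of_support_subset (b.repr (Y p q)) h2 (fun i a => a • b i) (fun i _ => zero_smul ℚ (b i))
    rw [Finsupp.linearCombination_apply, h3] at h1
    conv_lhs => rw [← h1]
    refine Finset.sum_congr rfl fun i _ => ?_
    show (b.repr (Y p q)) i • b i = b i * (((b.repr (Y p q)) i : ℚ) : ℂ)
    rw [Rat.smul_def, mul_comm]
  rw [hsum]
  exact Submodule.sum_mem _ fun i _ => Submodule.smul_mem _ _ (hmem i)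

theorem mapQ_br (μ : ℂ →ₗ[ℚ] ℚ) {X : Matrix B B ℂ} (hX : ∀ a b, X a b ∈ K₀) (Y : Matrix B B ℂ) :
    mapQ μ (X * Y - Y * X) = X * mapQ μ Y - mapQ μ Y * X := by
  ext i j
  rw [Matrix.sub_apply, Matrix.mul_apply, Matrix.mul_apply]
  show ((μ ((X * Y - Y * X) i j) : ℚ) : ℂ) = _
  rw [Matrix.sub_apply, Matrix.mul_apply, Matrix.mul_apply, map_sub, map_sum, map_sum]
  push_cast
  congr 1
  · refine Finset.sum_congr rfl fun l _ => ?_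
    obtain ⟨q, hq⟩ := mem_K₀.1 (hX i l)
    show ((μ (X i l * Y l j) : ℚ) : ℂ) = X i l * ((μ (Y l j) : ℚ) : ℂ)
    rw [hq, mul_comm, mu_mul, Rat.cast_mul, mul_comm]
  · refine Finset.sum_congr rfl fun l _ => ?_
    obtain ⟨q, hq⟩ := mem_K₀.1 (hX l j)
    show ((μ (Y i l * X l j) : ℚ) : ℂ) = ((μ (Y i l) : ℚ) : ℂ) * X l j
    rw [hq, mu_mul, Rat.cast_mul]

/-- the rational closure of an ideal is an ideal -/
theorem ratcl_ideal {𝔪 W : Submodule ℂ (Matrix B B ℂ)} (h𝔪 : DefOver K₀ 𝔪) (h : ∀ X ∈ 𝔪, ∀ Y ∈ W, X * Y - Y * X ∈ W) :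
    ∀ X ∈ 𝔪, ∀ Y ∈ ratcl W, X * Y - Y * X ∈ ratcl W := by
  intro X hX Y hY
  have hsub : ∀ Y', Y' ∈ ratcl W → ∀ X' ∈ 𝔪, (∀ a b, X' a b ∈ K₀) → X' * Y' - Y' * X' ∈ ratcl W := by
    intro Y' hY' X' hX' hr
    induction hY' using Submodule.span_induction with
    | mem Z hZ =>
      obtain ⟨μ, Z, hZ, rfl⟩ := hZ
      rw [← mapQ_br μ hr]
      exact Submodule.subset_span ⟨μ, _, h X' hX' Z hZ, rfl⟩
    | zero => rw [Matrix.mul_zero, Matrix.zero_mul, sub_zero]; exact Submodule.zero_mem _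
    | add Z Z' _ _ hZ hZ' =>
      have h1 : X' * (Z + Z') - (Z + Z') * X' = (X' * Z - Z * X') + (X' * Z' - Z' * X') := by noncomm_ring
      rw [h1]
      exact Submodule.add_mem _ hZ hZ'
    | smul c Z _ hZ =>
      rw [Matrix.mul_smul, Matrix.smul_mul, ← smul_sub]
      exact Submodule.smul_mem _ _ hZ
  rw [h𝔪] at hX
  induction hX using Submodule.span_induction with
  | mem X hX => exact hsub Y hY X hX.1 hX.2
  | zero => rw [Matrix.mul_zero, Matrix.zero_mul, sub_zero]; exact Submodule.zero_mem _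
  | add X X' _ _ hX hX' =>
    have h1 : (X + X') * Y - Y * (X + X') = (X * Y - Y * X) + (X' * Y - Y * X') := by noncomm_ring
    rw [h1]
    exact Submodule.add_mem _ hX hX'
  | smul c X _ hX =>
    rw [Matrix.mul_smul, Matrix.smul_mul, ← smul_sub]
    exact Submodule.smul_mem _ _ hX

end rat

variable {n N r₀ : ℕ}

/-- the elements of negative degree -/
def ngS (𝔪 : Submodule ℂ (Matrix (Fin n) (Fin n) ℂ)) (φ : Matrix (Fin n) (Fin n) ℂ) : Submodule ℂ (Matrix (Fin n) (Fin n) ℂ) :=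
  Submodule.span ℂ {X | X ∈ 𝔪 ∧ ∃ a : ℤ, a < 0 ∧ φ * X - X * φ = (a : ℂ) • X}

theorem ngS_le (𝔪 : Submodule ℂ (Matrix (Fin n) (Fin n) ℂ)) (φ : Matrix (Fin n) (Fin n) ℂ) : ngS 𝔪 φ ≤ 𝔪 :=
  Submodule.span_le.2 fun X hX => hX.1

/-- the codimension of proper subalgebras on the elements of negative degree is at least `c` -/
def Cod (c : ℕ) (𝔪 : Submodule ℂ (Matrix (Fin n) (Fin n) ℂ)) (φ : Matrix (Fin n) (Fin n) ℂ) : Prop :=
  ∀ 𝔫 : Submodule ℂ (Matrix (Fin n) (Fin n) ℂ), 𝔫 ≤ 𝔪 → DefOver K₀ 𝔫 → Lie' 𝔫 → (∀ Y ∈ 𝔫, φ * Y - Y * φ ∈ 𝔫) → 𝔫 ≠ 𝔪 →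
    finrank ℂ (ngS 𝔪 φ ⊓ 𝔫 : Submodule ℂ (Matrix (Fin n) (Fin n) ℂ)) + c ≤ finrank ℂ (ngS 𝔪 φ)

/-- spanned by commutators -/
def Prf (𝔪 : Submodule ℂ (Matrix (Fin n) (Fin n) ℂ)) : Prop :=
  𝔪 ≤ Submodule.span ℂ {W | ∃ X ∈ 𝔪, ∃ Y ∈ 𝔪, W = X * Y - Y * X}

section main
variable {𝔥 𝔊 : Submodule ℂ (Matrix (Ix r₀ n N) (Ix r₀ n N) ℂ)} {𝔪 : Submodule ℂ (Matrix (Fin n) (Fin n) ℂ)}
  {φ₀ : Matrix (Fin r₀) (Fin r₀) ℂ} {φ : Fin N → Matrix (Fin n) (Fin n) ℂ}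

theorem Tot_zero : Tot (0 : Matrix (Fin r₀) (Fin r₀) ℂ) (0 : Fin N → Matrix (Fin n) (Fin n) ℂ) = 0 := by
  unfold Tot
  rw [blockDiagonal_zero, fromBlocks_zero]

theorem Tot_add (Z Z' : Fin N → Matrix (Fin n) (Fin n) ℂ) :
    Tot (0 : Matrix (Fin r₀) (Fin r₀) ℂ) (Z + Z') = Tot 0 Z + Tot 0 Z' := by
  unfold Tot
  rw [fromBlocks_add, ← blockDiagonal_add]
  simp only [add_zero]

theorem Tot_smul (c : ℂ) (Z : Fin N → Matrix (Fin n) (Fin n) ℂ) :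
    Tot (0 : Matrix (Fin r₀) (Fin r₀) ℂ) (c • Z) = c • Tot 0 Z := by
  unfold Tot
  rw [fromBlocks_smul, ← blockDiagonal_smul]
  simp only [smul_zero]

/-- the elements of block `j` which can be lifted to elements of `𝔥` which vanish on the constant part and on the
blocks in `R` -/
def nk (𝔥 : Submodule ℂ (Matrix (Ix r₀ n N) (Ix r₀ n N) ℂ)) (𝔪 : Submodule ℂ (Matrix (Fin n) (Fin n) ℂ))
    (R : Finset (Fin N)) (j : Fin N) : Submodule ℂ (Matrix (Fin n) (Fin n) ℂ) where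
  carrier := {X | ∃ Z : Fin N → Matrix (Fin n) (Fin n) ℂ, (∀ i, Z i ∈ 𝔪) ∧ Tot 0 Z ∈ 𝔥 ∧ Z j = X ∧ ∀ i ∈ R, Z i = 0}
  zero_mem' := ⟨0, fun _ => 𝔪.zero_mem, by rw [Tot_zero]; exact Submodule.zero_mem _, rfl, fun _ _ => rfl⟩
  add_mem' := by
    rintro X Y ⟨Z, h0, h1, h2, h3⟩ ⟨Z', h0', h1', h2', h3'⟩
    refine ⟨Z + Z', fun i => 𝔪.add_mem (h0 i) (h0' i), ?_, ?_, fun i hi => ?_⟩
    · rw [Tot_add]
      exact Submodule.add_mem _ h1 h1'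
    · rw [Pi.add_apply, h2, h2']
    · rw [Pi.add_apply, h3 i hi, h3' i hi, add_zero]
  smul_mem' := by
    rintro c X ⟨Z, h0, h1, h2, h3⟩
    refine ⟨c • Z, fun i => 𝔪.smul_mem _ (h0 i), ?_, ?_, fun i hi => ?_⟩
    · rw [Tot_smul]
      exact Submodule.smul_mem _ _ h1
    · rw [Pi.smul_apply, h2]
    · rw [Pi.smul_apply, h3 i hi, smul_zero]

/-- all elements of `𝔪` in the blocks in `R` can be lifted -/
def LH (𝔥 : Submodule ℂ (Matrix (Ix r₀ n N) (Ix r₀ n N) ℂ)) (𝔪 : Submodule ℂ (Matrix (Fin n) (Fin n) ℂ))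
    (R : Finset (Fin N)) : Prop :=
  ∀ i ∈ R, ∀ X ∈ 𝔪, ∃ Z : Fin N → Matrix (Fin n) (Fin n) ℂ, (∀ i, Z i ∈ 𝔪) ∧ Tot 0 Z ∈ 𝔥 ∧ Z i = X ∧
    ∀ i' ∈ R, i' ≠ i → Z i' = 0

theorem nk_le {R : Finset (Fin N)} {j : Fin N} : nk 𝔥 𝔪 R j ≤ 𝔪 := by
  rintro X ⟨Z, h0, h1, h2, h3⟩
  rw [← h2]
  exact h0 j

theorem nk_br (hL : Lie' 𝔥) (h𝔪 : Lie' 𝔪) {R : Finset (Fin N)} {j : Fin N} : Lie' (nk 𝔥 𝔪 R j) := by
  rintro x ⟨Z, h0, h1, h2, h3⟩ y ⟨Z', h0', h1', h2', h3'⟩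
  refine ⟨fun i => Z i * Z' i - Z' i * Z i, fun i => h𝔪 _ (h0 i) _ (h0' i), ?_, ?_, fun i hi => ?_⟩
  · have h4 := hL _ h1 _ h1'
    rw [Tot_br, Matrix.mul_zero, sub_zero] at h4
    exact h4
  · show Z j * Z' j - Z' j * Z j = _
    rw [h2, h2']
  · show Z i * Z' i - Z' i * Z i = 0
    rw [h3 i hi, Matrix.zero_mul, Matrix.mul_zero, sub_zero]

theorem nk_phi (hL : Lie' 𝔥) (hφ : Tot φ₀ φ ∈ 𝔥) (hst : ∀ j, ∀ Y ∈ 𝔪, φ j * Y - Y * φ j ∈ 𝔪) {R : Finset (Fin N)}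
    {j : Fin N} : ∀ y ∈ nk 𝔥 𝔪 R j, φ j * y - y * φ j ∈ nk 𝔥 𝔪 R j := by
  rintro y ⟨Z, h0, h1, h2, h3⟩
  refine ⟨fun i => φ i * Z i - Z i * φ i, fun i => hst i _ (h0 i), ?_, ?_, fun i hi => ?_⟩
  · have h4 := hL _ hφ _ h1
    rw [Tot_br, Matrix.mul_zero, Matrix.zero_mul, sub_zero] at h4
    exact h4
  · show φ j * Z j - Z j * φ j = _
    rw [h2]
  · show φ i * Z i - Z i * φ i = 0
    rw [h3 i hi, Matrix.zero_mul, Matrix.mul_zero, sub_zero]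

theorem nk_rat (hr : DefOver K₀ 𝔥) (h𝔪 : DefOver K₀ 𝔪) {R : Finset (Fin N)} {j : Fin N} : DefOver K₀ (nk 𝔥 𝔪 R j) := by
  refine rat_of ?_
  rintro μ y ⟨Z, h0, h1, h2, h3⟩
  refine ⟨fun i => mapQ μ (Z i), fun i => mapQ_mem h𝔪 μ (h0 i), ?_, ?_, fun i hi => ?_⟩
  · have h4 := mapQ_mem hr μ h1
    rw [mapQ_Tot, mapQ_zero] at h4
    exact h4
  · show mapQ μ (Z j) = _
    rw [h2]
  · show mapQ μ (Z i) = 0
    rw [h3 i hi, mapQ_zero]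

/-- **one more block** -/
theorem LH_insert (hL : Lie' 𝔥) (h𝔪 : Lie' 𝔪) (hperf : Prf 𝔪) {R : Finset (Fin N)} {j : Fin N} (hj : j ∉ R)
    (hR : LH 𝔥 𝔪 R) (hfull : 𝔪 ≤ nk 𝔥 𝔪 R j) : LH 𝔥 𝔪 (insert j R) := by
  intro i hi X hX
  rw [Finset.mem_insert] at hi
  rcases hi with rfl | hi
  · obtain ⟨Z, h0, h1, h2, h3⟩ := hfull hX
    refine ⟨Z, h0, h1, h2, fun i' hi' hne => ?_⟩
    rw [Finset.mem_insert] at hi'
    exact h3 i' (hi'.resolve_left hne)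
  · have hne : i ≠ j := fun h => hj (h ▸ hi)
    have h1 := hperf hX
    clear hX
    induction h1 using Submodule.span_induction with
    | mem W hW =>
      obtain ⟨X, hX, Y, hY, rfl⟩ := hW
      obtain ⟨Z, k0, k1, k2, k3⟩ := hR i hi X hX
      obtain ⟨Z', k0', k1', k2', k3'⟩ := hR i hi Y hY
      obtain ⟨W, m0, m1, m2, m3⟩ := hfull (h𝔪 _ (k0 j) _ (k0' j))
      have k4 := hL _ k1 _ k1'
      rw [Tot_br, Matrix.mul_zero, sub_zero] at k4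
      refine ⟨fun l => (Z l * Z' l - Z' l * Z l) - W l, fun l => 𝔪.sub_mem (h𝔪 _ (k0 l) _ (k0' l)) (m0 l), ?_, ?_,
        fun i' hi' hne' => ?_⟩
      · have h := 𝔥.sub_mem k4 m1
        rw [Tot_sub, sub_zero] at h
        exact h
      · show (Z i * Z' i - Z' i * Z i) - W i = X * Y - Y * X
        rw [k2, k2', m3 i hi, sub_zero]
      · show (Z i' * Z' i' - Z' i' * Z i') - W i' = 0
        rw [Finset.mem_insert] at hi'
        rcases hi' with rfl | hi'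
        · rw [m2, sub_self]
        · rw [k3 i' hi' hne', m3 i' hi', Matrix.zero_mul, Matrix.mul_zero, sub_zero, sub_zero]
    | zero => exact ⟨0, fun _ => 𝔪.zero_mem, by rw [Tot_zero]; exact Submodule.zero_mem _, rfl, fun _ _ _ => rfl⟩
    | add X Y _ _ hX hY =>
      obtain ⟨Z, h0, h1, h2, h3⟩ := hX
      obtain ⟨Z', h0', h1', h2', h3'⟩ := hY
      refine ⟨Z + Z', fun i => 𝔪.add_mem (h0 i) (h0' i), ?_, ?_, fun i hi hne => ?_⟩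
      · rw [Tot_add]
        exact Submodule.add_mem _ h1 h1'
      · rw [Pi.add_apply, h2, h2']
      · rw [Pi.add_apply, h3 i hi hne, h3' i hi hne, add_zero]
    | smul c X _ hX =>
      obtain ⟨Z, h0, h1, h2, h3⟩ := hX
      refine ⟨c • Z, fun i => 𝔪.smul_mem _ (h0 i), ?_, ?_, fun i hi hne => ?_⟩
      · rw [Tot_smul]
        exact Submodule.smul_mem _ _ h1
      · rw [Pi.smul_apply, h2]
      · rw [Pi.smul_apply, h3 i hi hne, smul_zero]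

/-- **the number of exceptional blocks** -/
theorem LH_dim {c r : ℕ} {Q : Matrix (Ix r₀ n N) (Ix r₀ n N) ℂ} {Lev : Ix r₀ n N → ℤ}
    (hE : Eig Lev Q (Tot φ₀ φ)) (hL : Lie' 𝔥) (h𝔪 : Lie' 𝔪) (hr : DefOver K₀ 𝔥) (h𝔪r : DefOver K₀ 𝔪)
    (hφ : Tot φ₀ φ ∈ 𝔥) (hst : ∀ j, ∀ Y ∈ 𝔪, φ j * Y - Y * φ j ∈ 𝔪) (hcr : ∀ j, Cod c 𝔪 (φ j))
    (hm : ∀ j, ∀ X ∈ 𝔪, ib j X ∈ 𝔊)
    (hcod : finrank ℂ 𝔊 ≤ finrank ℂ (𝔊 ⊓ (𝔥 ⊔ cjS Q (ppS ℂ Lev)) : Submodule ℂ (Matrix (Ix r₀ n N) (Ix r₀ n N) ℂ)) + r)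
    {R : Finset (Fin N)} (hR : ∀ j ∉ R, ¬ 𝔪 ≤ nk 𝔥 𝔪 R j) : Rᶜ.card * c ≤ r := by
  classical
  have hsp : ∀ j, ngS 𝔪 (φ j) ≤ 𝔪 := fun j => ngS_le _ _
  let Φ : ((j : {j // j ∈ Rᶜ}) → ngS 𝔪 (φ j.1)) →ₗ[ℂ] Matrix (Ix r₀ n N) (Ix r₀ n N) ℂ :=
    ∑ j : {j // j ∈ Rᶜ}, (ib j.1) ∘ₗ (ngS 𝔪 (φ j.1)).subtype ∘ₗ LinearMap.proj j
  have hsum : ∀ (s : Finset {j // j ∈ Rᶜ}) (Y : {j // j ∈ Rᶜ} → Matrix (Fin n) (Fin n) ℂ),
      ∑ j ∈ s, ib (r₀ := r₀) j.1 (Y j) = Tot 0 (∑ j ∈ s, Pi.single j.1 (Y j)) := by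
    intro s Y
    induction s using Finset.induction_on with
    | empty =>
      rw [Finset.sum_empty, Finset.sum_empty, Tot_zero]
    | insert a s ha ih =>
      rw [Finset.sum_insert ha, Finset.sum_insert ha, ih, ib_apply, Tot_add]
      rfl
  have hΦ : ∀ X, Φ X = Tot 0 fun i => if h : i ∈ Rᶜ then (X ⟨i, h⟩ : Matrix (Fin n) (Fin n) ℂ) else 0 := by
    intro X
    have h0 : Φ X = ∑ j : {j // j ∈ Rᶜ}, ib j.1 (X j : Matrix (Fin n) (Fin n) ℂ) := by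
      simp only [Φ, LinearMap.sum_apply]
      rfl
    rw [h0, hsum Finset.univ fun j => (X j : Matrix (Fin n) (Fin n) ℂ)]
    congr 1
    funext i
    rw [Finset.sum_apply]
    by_cases hi : i ∈ Rᶜ
    · rw [dif_pos hi, Finset.sum_eq_single ⟨i, hi⟩]
      · rw [Pi.single_eq_same]
      · intro j _ hj
        rw [Pi.single_eq_of_ne]
        rintro rfl
        exact hj rfl
      · intro h
        exact absurd (Finset.mem_univ _) h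
    · rw [dif_neg hi]
      refine Finset.sum_eq_zero fun j _ => ?_
      rw [Pi.single_eq_of_ne]
      rintro rfl
      exact hi j.2
  have h1 := cod_sub Φ (V' := ⊤) (fun X _ => by
    show Φ X ∈ 𝔊
    simp only [Φ, LinearMap.sum_apply]
    exact Submodule.sum_mem _ fun j _ => hm j.1 _ (hsp j.1 (X j).2)) hcod
  have h2 : ∀ X, Φ X ∈ 𝔥 ⊔ cjS Q (ppS ℂ Lev) → ∀ j : {j // j ∈ Rᶜ}, (X j : Matrix (Fin n) (Fin n) ℂ) ∈ nk 𝔥 𝔪 R j.1 := by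
    intro X hX j
    have h3 : Φ X ∈ 𝔥 := by
      refine neg_part hE (fun Y hY => hL _ hφ _ hY) ?_ hX
      simp only [Φ, LinearMap.sum_apply]
      refine Submodule.sum_mem _ fun i _ => ?_
      have h4 := (X i).2
      show ib i.1 (X i : Matrix (Fin n) (Fin n) ℂ) ∈ _
      generalize (X i : Matrix (Fin n) (Fin n) ℂ) = Y₀ at h4
      clear hX h1
      unfold ngS at h4
      induction h4 using Submodule.span_induction with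
      | mem X hX =>
        obtain ⟨-, c, hc, hX⟩ := hX
        refine Submodule.subset_span ⟨c, hc, ?_⟩
        rw [ad_ib, hX, map_smul]
      | zero => rw [map_zero]; exact Submodule.zero_mem _
      | add X Y _ _ hX hY => rw [map_add]; exact Submodule.add_mem _ hX hY
      | smul c X _ hX => rw [map_smul]; exact Submodule.smul_mem _ _ hX
    rw [hΦ] at h3
    refine ⟨_, fun i => ?_, h3, ?_, fun i hi => ?_⟩
    · show (if h : i ∈ Rᶜ then (X ⟨i, h⟩ : Matrix (Fin n) (Fin n) ℂ) else 0) ∈ 𝔪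
      split_ifs with h
      · exact hsp _ (X ⟨i, h⟩).2
      · exact 𝔪.zero_mem
    · show (if h : j.1 ∈ Rᶜ then (X ⟨j.1, h⟩ : Matrix (Fin n) (Fin n) ℂ) else 0) = _
      rw [dif_pos j.2]
    · show (if h : i ∈ Rᶜ then (X ⟨i, h⟩ : Matrix (Fin n) (Fin n) ℂ) else 0) = 0
      rw [dif_neg]
      rw [Finset.mem_compl, not_not]
      exact hi
  let ι : (⊤ ⊓ (𝔥 ⊔ cjS Q (ppS ℂ Lev)).comap Φ : Submodule ℂ ((j : {j // j ∈ Rᶜ}) → ngS 𝔪 (φ j.1))) →ₗ[ℂ]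
      ((j : {j // j ∈ Rᶜ}) → (ngS 𝔪 (φ j.1) ⊓ nk 𝔥 𝔪 R j.1 : Submodule ℂ (Matrix (Fin n) (Fin n) ℂ))) :=
    { toFun := fun X j => ⟨(X.1 j : Matrix (Fin n) (Fin n) ℂ), (X.1 j).2, h2 X.1 X.2.2 j⟩
      map_add' := fun X Y => rfl
      map_smul' := fun c X => rfl }
  have hι : Function.Injective ι := by
    intro X Y h
    apply Subtype.ext
    funext j
    apply Subtype.ext
    have h3 : ι X j = ι Y j := congrFun h j
    exact congrArg (fun Z : (ngS 𝔪 (φ j.1) ⊓ nk 𝔥 𝔪 R j.1 : Submodule ℂ (Matrix (Fin n) (Fin n) ℂ)) =>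
      (Z : Matrix (Fin n) (Fin n) ℂ)) h3
  have h3 := LinearMap.finrank_le_finrank_of_injective hι
  rw [Module.finrank_pi_fintype] at h3
  rw [finrank_top, Module.finrank_pi_fintype] at h1
  have h4 : ∀ j : {j // j ∈ Rᶜ}, finrank ℂ (ngS 𝔪 (φ j.1) ⊓ nk 𝔥 𝔪 R j.1 : Submodule ℂ (Matrix (Fin n) (Fin n) ℂ)) + c ≤
      finrank ℂ (ngS 𝔪 (φ j.1)) := fun j => hcr j.1 _ nk_le (nk_rat hr h𝔪r) (nk_br hL h𝔪) (nk_phi hL hφ hst) fun h =>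
        hR j.1 (Finset.mem_compl.1 j.2) h.ge
  have h5 := Finset.sum_le_sum fun (j : {j // j ∈ Rᶜ}) (_ : j ∈ Finset.univ) => h4 j
  rw [Finset.sum_add_distrib, Finset.sum_const, Finset.card_univ, Fintype.card_coe, smul_eq_mul] at h5
  omega

/-- **most blocks can be lifted** -/
theorem LH_main {c r : ℕ} {Q : Matrix (Ix r₀ n N) (Ix r₀ n N) ℂ} {Lev : Ix r₀ n N → ℤ}
    (hE : Eig Lev Q (Tot φ₀ φ)) (hL : Lie' 𝔥) (h𝔪 : Lie' 𝔪) (hr : DefOver K₀ 𝔥) (h𝔪r : DefOver K₀ 𝔪) (hperf : Prf 𝔪)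
    (hφ : Tot φ₀ φ ∈ 𝔥) (hst : ∀ j, ∀ Y ∈ 𝔪, φ j * Y - Y * φ j ∈ 𝔪) (hcr : ∀ j, Cod c 𝔪 (φ j))
    (hm : ∀ j, ∀ X ∈ 𝔪, ib j X ∈ 𝔊)
    (hcod : finrank ℂ 𝔊 ≤ finrank ℂ (𝔊 ⊓ (𝔥 ⊔ cjS Q (ppS ℂ Lev)) : Submodule ℂ (Matrix (Ix r₀ n N) (Ix r₀ n N) ℂ)) + r) :
    ∃ S : Finset (Fin N), S.card * c ≤ r ∧ LH 𝔥 𝔪 Sᶜ := by
  classical
  obtain ⟨R, hR, hmax⟩ := Finset.exists_max_image (Finset.univ.filter fun R : Finset (Fin N) => LH 𝔥 𝔪 R) Finset.card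
    ⟨∅, Finset.mem_filter.2 ⟨Finset.mem_univ _, fun i hi => absurd hi (Finset.notMem_empty _)⟩⟩
  rw [Finset.mem_filter] at hR
  refine ⟨Rᶜ, LH_dim hE hL h𝔪 hr h𝔪r hφ hst hcr hm hcod fun j hj hfull => ?_, by rw [compl_compl]; exact hR.2⟩
  have h1 := hmax (insert j R) (Finset.mem_filter.2 ⟨Finset.mem_univ _, LH_insert hL h𝔪 hperf hj hR.2 hfull⟩)
  rw [Finset.card_insert_of_notMem hj] at h1
  omega

end main

end Pool.Agent.Helper880_EX
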