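import Pool.Agent.Helper880_HC.Ff

/-!
# Lie algebras of block matrices of small codimension contain most of the blocks
-/

set_option autoImplicit false
set_option linter.unusedSectionVars false
set_option linter.unusedVariables false

open Matrix Module

namespace Pool.Agent.Helper880_EX

open Pool.Agent.Helper880_LF (spS mem_spS om om_self pr pr_mem comm_pr pr_mulVec mem_of_pr pr_of_sq pr_smul_left pr_smul_right
  smul_mem_iff' om_nondeg om_add_left om_add_right om_smul_left om_smul_right)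
open Pool.Agent.Helper880_R3 (Ix Tot Tot_mul Tot_inj ib ib_apply ib_mul wd so_span)
open Pool.Agent.Helper880_ZP
open Pool.Agent.Helper880_HC (wq wq_neg ort1 Lm_dim col_ne col_eig Tot_sub triple)

variable {n N r₀ : ℕ}

/-- a criterion for subalgebras of the Lie algebra of `J` to be equal to it -/
structure Crit (c : ℕ) (J φ : Matrix (Fin n) (Fin n) ℂ) (𝔴 : Submodule ℂ (Matrix (Fin n) (Fin n) ℂ)) : Prop where
  /-- all elements are sums of elements of negative degree -/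
  neg : 𝔴 ≤ Submodule.span ℂ {X | X ∈ spS J ∧ ∃ c : ℤ, c < 0 ∧ φ * X - X * φ = (c : ℂ) • X}
  /-- subalgebras of small codimension are equal to the Lie algebra -/
  full : ∀ 𝔫 : Submodule ℂ (Matrix (Fin n) (Fin n) ℂ), 𝔫 ≤ spS J → (∀ x ∈ 𝔫, ∀ y ∈ 𝔫, x * y - y * x ∈ 𝔫) →
    (∀ y ∈ 𝔫, mbar y ∈ 𝔫) → (∀ y ∈ 𝔫, φ * y - y * φ ∈ 𝔫) → ∀ ρ : ℕ, ρ < c →
    finrank ℂ 𝔴 ≤ finrank ℂ (𝔴 ⊓ 𝔫 : Submodule ℂ (Matrix (Fin n) (Fin n) ℂ)) + ρ → spS J ≤ 𝔫

theorem crit_sp {c : ℕ} {w : ℤ} {J φ R : Matrix (Fin n) (Fin n) ℂ} {lev : Fin n → ℤ} (hp : Pol w J φ) (he : Eig lev R φ)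
    (hJ : Jᵀ = -J) (hdet : IsUnit J.det) (hc : 2 * c + 2 ≤ n) : Crit c J φ (sq J (Lm w φ)) :=
  ⟨hp.sq_neg hJ, fun 𝔫 h1 h2 h3 h4 ρ hρ h5 => hp.full2 he hJ hdet h1 h2 h3 h4 h5 (by omega)⟩

theorem crit_so {c : ℕ} {w : ℤ} {J φ R : Matrix (Fin n) (Fin n) ℂ} {lev : Fin n → ℤ} (hp : Pol w J φ) (he : Eig lev R φ)
    (hJ : Jᵀ = J) (hdet : IsUnit J.det) {b₀ : Fin n} (hb₀ : 2 * lev b₀ = w) (hc : c ≤ Fintype.card {b // 2 * lev b < w}) :
    Crit c J φ (wq w J φ) := by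
  refine ⟨wq_neg hp hJ, fun 𝔫 h1 h2 h3 h4 ρ hρ h5 => ?_⟩
  have h6 := ort1 hp he hJ h1 h2 h3 h4 h5 (hρ.trans_le (hc.trans (Lm_dim he))) (col_ne he b₀) hb₀ (col_eig he b₀)
  have hinv : (J⁻¹)⁻¹ = J := nonsing_inv_nonsing_inv J hdet
  have hdet' : IsUnit (J⁻¹).det := by
    rw [← Matrix.isUnit_iff_isUnit_det, Matrix.isUnit_nonsing_inv_iff]
    exact (Matrix.isUnit_iff_isUnit_det _).2 hdet
  have hJ' : (J⁻¹)ᵀ = J⁻¹ := by rw [transpose_nonsing_inv, hJ]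
  exact fun X hX => so_span hdet' hJ' (fun u v => by rw [hinv]; exact h6 u v) (spS_lieB hdet hX)

/-- the Lie algebra is spanned by the commutators of its elements -/
def Perfect (J : Matrix (Fin n) (Fin n) ℂ) : Prop :=
  ∀ 𝔞 : Submodule ℂ (Matrix (Fin n) (Fin n) ℂ), (∀ X ∈ spS J, ∀ Y ∈ spS J, X * Y - Y * X ∈ 𝔞) → spS J ≤ 𝔞

theorem perf_sp {J : Matrix (Fin n) (Fin n) ℂ} (hJ : Jᵀ = -J) (hdet : IsUnit J.det) : Perfect J := by
  intro 𝔞 h𝔞
  have hsq : ∀ a, pr J a a ∈ 𝔞 := by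
    intro a
    by_cases ha : a = 0
    · rw [ha, Pool.Agent.Helper880_LF.pr_zero_left]
      exact Submodule.zero_mem _
    obtain ⟨b, hb⟩ : ∃ b, om J b a ≠ 0 := by
      by_contra hcon
      push Not at hcon
      exact ha (om_nondeg hdet hcon)
    have h1 := h𝔞 _ (pr_mem hJ a b) _ (pr_mem hJ a a)
    rw [comm_pr hJ (pr_mem hJ a b), pr_mulVec, om_self hJ, zero_smul, add_zero, pr_smul_left, pr_smul_right, ← add_smul] at h1
    exact smul_mem_iff' (c := om J b a + om J b a) (by rw [← two_mul]; exact mul_ne_zero two_ne_zero hb) h1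
  intro X hX
  exact mem_of_pr hJ hdet (𝔞 := 𝔞) (fun u v => pr_of_sq (hsq u) (hsq v) (hsq (u + v))) hX

theorem perf_so {J : Matrix (Fin n) (Fin n) ℂ} (hJ : Jᵀ = J) (hdet : IsUnit J.det) {b d' e : Fin n → ℂ}
    (hb : om J b b ≠ 0) (hd : om J d' d' ≠ 0) (he : om J e e ≠ 0) (hbd : om J b d' = 0) (hbe : om J b e = 0)
    (hde : om J d' e = 0) : Perfect J := by
  intro 𝔞 h𝔞
  have H : ∀ c x y : Fin n → ℂ, om J c c ≠ 0 → om J c x = 0 → om J c y = 0 → wd J x y ∈ 𝔞 := by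
    intro c x y hc hx hy
    have h1 := h𝔞 _ (wd_mem' hJ c x) _ (wd_mem' hJ c y)
    have hxc : om J x c = 0 := by rw [om_symm hJ]; exact hx
    rw [comm_wd hJ (wd_mem' hJ c x), wd_mulVec, wd_mulVec, hxc, hy, zero_smul, zero_smul, zero_sub, sub_zero, wd_neg_left,
      wd_smul_left, wd_smul_right, wd_self, smul_zero, add_zero] at h1
    exact smul_mem_iff' hc ((Submodule.neg_mem_iff _).1 h1)
  have hB : ∀ z, om J b z = 0 → wd J b z ∈ 𝔞 := by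
    intro z hz
    have h1 : z = (om J d' z / om J d' d') • d' + (z - (om J d' z / om J d' d') • d') := by abel
    rw [h1, wd_add_right, wd_smul_right]
    refine 𝔞.add_mem (𝔞.smul_mem _ (H e b d' he ?_ ?_)) (H d' b _ hd ?_ ?_)
    · rw [om_symm hJ]; exact hbe
    · rw [om_symm hJ]; exact hde
    · rw [om_symm hJ]; exact hbd
    · rw [sub_eq_add_neg, om_add_right, om_neg_right, om_smul_right, div_mul_cancel₀ _ hd, add_neg_cancel]
  have hall : ∀ x y, wd J x y ∈ 𝔞 := by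
    intro x y
    have hdec : ∀ z : Fin n → ℂ, z = (om J b z / om J b b) • b + (z - (om J b z / om J b b) • b) := fun z => by abel
    have hperp : ∀ z : Fin n → ℂ, om J b (z - (om J b z / om J b b) • b) = 0 := fun z => by
      rw [sub_eq_add_neg, om_add_right, om_neg_right, om_smul_right, div_mul_cancel₀ _ hb, add_neg_cancel]
    rw [hdec x, hdec y, wd_add_left, wd_add_right, wd_add_right, wd_smul_left, wd_smul_left, wd_smul_right, wd_smul_right,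
      wd_self, smul_zero, smul_zero, zero_add]
    refine 𝔞.add_mem (𝔞.smul_mem _ (hB _ (hperp y))) (𝔞.add_mem (𝔞.smul_mem _ ?_) (H b _ _ hb (hperp x) (hperp y)))
    rw [wd_swap]
    exact 𝔞.neg_mem (hB _ (hperp x))
  have hinv : (J⁻¹)⁻¹ = J := nonsing_inv_nonsing_inv J hdet
  have hdet' : IsUnit (J⁻¹).det := by
    rw [← Matrix.isUnit_iff_isUnit_det, Matrix.isUnit_nonsing_inv_iff]
    exact (Matrix.isUnit_iff_isUnit_det _).2 hdet
  have hJ' : (J⁻¹)ᵀ = J⁻¹ := by rw [transpose_nonsing_inv, hJ]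
  intro X hX
  exact so_span hdet' hJ' (𝔫 := 𝔞) (fun u v => by rw [hinv]; exact hall u v) (spS_lieB hdet hX)

/-- the commutators of similitudes are isometries -/
theorem sim_br {J X Y : Matrix (Fin n) (Fin n) ℂ} {c c' : ℂ} (hX : Xᵀ * J + J * X = c • J) (hY : Yᵀ * J + J * Y = c' • J) :
    X * Y - Y * X ∈ spS J := by
  have h1 : ∀ {X : Matrix (Fin n) (Fin n) ℂ} {c : ℂ}, Xᵀ * J + J * X = c • J →
      X - (c / 2) • (1 : Matrix (Fin n) (Fin n) ℂ) ∈ spS J := by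
    intro X c h
    rw [mem_spS, transpose_sub, transpose_smul, transpose_one, Matrix.sub_mul, Matrix.mul_sub, Matrix.smul_mul,
      Matrix.mul_smul, Matrix.one_mul, Matrix.mul_one]
    have h2 : Xᵀ * J - (c / 2) • J + (J * X - (c / 2) • J) = (Xᵀ * J + J * X) - c • J := by
      have h3 : c • J = (c / 2) • J + (c / 2) • J := by rw [← add_smul, add_halves]
      rw [h3]
      abel
    rw [h2, h, sub_self]
  have h2 := sp_lie' (h1 hX) (h1 hY)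
  have h3 : (X - (c / 2) • (1 : Matrix (Fin n) (Fin n) ℂ)) * (Y - (c' / 2) • 1) -
      (Y - (c' / 2) • 1) * (X - (c / 2) • 1) = X * Y - Y * X := by
    simp only [Matrix.sub_mul, Matrix.mul_sub, Matrix.smul_mul, Matrix.mul_smul, Matrix.one_mul, Matrix.mul_one]
    module
  rwa [h3] at h2

section main
variable {𝔥 𝔊 : Submodule ℂ (Matrix (Ix r₀ n N) (Ix r₀ n N) ℂ)} {J : Matrix (Fin n) (Fin n) ℂ}
  {φ₀ : Matrix (Fin r₀) (Fin r₀) ℂ} {φ : Fin N → Matrix (Fin n) (Fin n) ℂ}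

/-- the elements of block `j` which can be lifted to elements of `𝔥` which vanish on the constant part and on the
blocks in `R` -/
def nj (𝔥 : Submodule ℂ (Matrix (Ix r₀ n N) (Ix r₀ n N) ℂ)) (J : Matrix (Fin n) (Fin n) ℂ) (R : Finset (Fin N))
    (j : Fin N) : Submodule ℂ (Matrix (Fin n) (Fin n) ℂ) where
  carrier := {X | X ∈ spS J ∧ ∃ Z : Fin N → Matrix (Fin n) (Fin n) ℂ, Tot 0 Z ∈ 𝔥 ∧ Z j = X ∧ ∀ i ∈ R, Z i = 0}
  zero_mem' := ⟨Submodule.zero_mem _, 0, by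
    have h : Tot (0 : Matrix (Fin r₀) (Fin r₀) ℂ) (0 : Fin N → Matrix (Fin n) (Fin n) ℂ) = 0 := by
      unfold Tot
      rw [blockDiagonal_zero, fromBlocks_zero]
    rw [h]
    exact Submodule.zero_mem _, rfl, fun _ _ => rfl⟩
  add_mem' := by
    rintro X Y ⟨hX, Z, h1, h2, h3⟩ ⟨hY, Z', h1', h2', h3'⟩
    refine ⟨Submodule.add_mem _ hX hY, Z + Z', ?_, ?_, fun i hi => ?_⟩
    · have h : Tot (0 : Matrix (Fin r₀) (Fin r₀) ℂ) (Z + Z') = Tot 0 Z + Tot 0 Z' := by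
        unfold Tot
        rw [fromBlocks_add, ← blockDiagonal_add]
        simp only [add_zero]
      rw [h]
      exact Submodule.add_mem _ h1 h1'
    · rw [Pi.add_apply, h2, h2']
    · rw [Pi.add_apply, h3 i hi, h3' i hi, add_zero]
  smul_mem' := by
    rintro c X ⟨hX, Z, h1, h2, h3⟩
    refine ⟨Submodule.smul_mem _ _ hX, c • Z, ?_, ?_, fun i hi => ?_⟩
    · have h : Tot (0 : Matrix (Fin r₀) (Fin r₀) ℂ) (c • Z) = c • Tot 0 Z := by
        unfold Tot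
        rw [fromBlocks_smul, ← blockDiagonal_smul]
        simp only [smul_zero]
      rw [h]
      exact Submodule.smul_mem _ _ h1
    · rw [Pi.smul_apply, h2]
    · rw [Pi.smul_apply, h3 i hi, smul_zero]

/-- all elements of the Lie algebras of the blocks in `R` can be lifted -/
def LG (𝔥 : Submodule ℂ (Matrix (Ix r₀ n N) (Ix r₀ n N) ℂ)) (J : Matrix (Fin n) (Fin n) ℂ) (R : Finset (Fin N)) : Prop :=
  ∀ i ∈ R, ∀ X ∈ spS J, ∃ Z : Fin N → Matrix (Fin n) (Fin n) ℂ, Tot 0 Z ∈ 𝔥 ∧ Z i = X ∧ ∀ i' ∈ R, i' ≠ i → Z i' = 0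

theorem Tot_br (x y : Matrix (Fin r₀) (Fin r₀) ℂ) (X Y : Fin N → Matrix (Fin n) (Fin n) ℂ) :
    Tot x X * Tot y Y - Tot y Y * Tot x X = Tot (x * y - y * x) fun j => X j * Y j - Y j * X j := by
  rw [Tot_mul, Tot_mul, Tot_sub]

theorem nj_br (hL : Lie' 𝔥) {R : Finset (Fin N)} {j : Fin N} : ∀ x ∈ nj 𝔥 J R j, ∀ y ∈ nj 𝔥 J R j,
    x * y - y * x ∈ nj 𝔥 J R j := by
  rintro x ⟨hx, Z, h1, h2, h3⟩ y ⟨hy, Z', h1', h2', h3'⟩
  refine ⟨sp_lie' hx hy, fun i => Z i * Z' i - Z' i * Z i, ?_, ?_, fun i hi => ?_⟩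
  · have h4 := hL _ h1 _ h1'
    rw [Tot_br, Matrix.mul_zero, sub_zero] at h4
    exact h4
  · show Z j * Z' j - Z' j * Z j = _
    rw [h2, h2']
  · show Z i * Z' i - Z' i * Z i = 0
    rw [h3 i hi, Matrix.zero_mul, Matrix.mul_zero, sub_zero]

theorem nj_bar {w : ℤ} (hp : ∀ j, Pol w J (φ j)) (hbar : ∀ X ∈ 𝔥, mbar X ∈ 𝔥) {R : Finset (Fin N)} {j : Fin N} :
    ∀ y ∈ nj 𝔥 J R j, mbar y ∈ nj 𝔥 J R j := by
  rintro y ⟨hy, Z, h1, h2, h3⟩
  refine ⟨spS_bar (hp j).real hy, fun i => mbar (Z i), ?_, ?_, fun i hi => ?_⟩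
  · have h4 := hbar _ h1
    rw [mbar_Tot, mbar_zero] at h4
    exact h4
  · show mbar (Z j) = mbar y
    rw [h2]
  · show mbar (Z i) = 0
    rw [h3 i hi, mbar_zero]

theorem nj_phi {w : ℤ} (hL : Lie' 𝔥) (hφ : Tot φ₀ φ ∈ 𝔥) (hp : ∀ j, Pol w J (φ j)) {R : Finset (Fin N)} {j : Fin N} :
    ∀ y ∈ nj 𝔥 J R j, φ j * y - y * φ j ∈ nj 𝔥 J R j := by
  rintro y ⟨hy, Z, h1, h2, h3⟩
  refine ⟨(hp j).ad_mem hy, fun i => φ i * Z i - Z i * φ i, ?_, ?_, fun i hi => ?_⟩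
  · have h4 := hL _ hφ _ h1
    rw [Tot_br, Matrix.mul_zero, Matrix.zero_mul, sub_zero] at h4
    exact h4
  · show φ j * Z j - Z j * φ j = _
    rw [h2]
  · show φ i * Z i - Z i * φ i = 0
    rw [h3 i hi, Matrix.zero_mul, Matrix.mul_zero, sub_zero]

/-- **one more block** -/
theorem LG_insert (hL : Lie' 𝔥) (hperf : Perfect J)
    (hsim : ∀ Z : Fin N → Matrix (Fin n) (Fin n) ℂ, Tot 0 Z ∈ 𝔥 → ∀ j, ∃ c : ℂ, (Z j)ᵀ * J + J * Z j = c • J)
    {R : Finset (Fin N)} {j : Fin N} (hj : j ∉ R) (hR : LG 𝔥 J R) (hfull : spS J ≤ nj 𝔥 J R j) : LG 𝔥 J (insert j R) := by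
  intro i hi X hX
  rw [Finset.mem_insert] at hi
  rcases hi with rfl | hi
  · obtain ⟨-, Z, h1, h2, h3⟩ := hfull hX
    refine ⟨Z, h1, h2, fun i' hi' hne => ?_⟩
    rw [Finset.mem_insert] at hi'
    exact h3 i' (hi'.resolve_left hne)
  · let 𝔞 : Submodule ℂ (Matrix (Fin n) (Fin n) ℂ) :=
      { carrier := {X | ∃ Z : Fin N → Matrix (Fin n) (Fin n) ℂ, Tot 0 Z ∈ 𝔥 ∧ Z i = X ∧ ∀ i' ∈ insert j R, i' ≠ i → Z i' = 0}
        zero_mem' := ⟨0, by
          have h : Tot (0 : Matrix (Fin r₀) (Fin r₀) ℂ) (0 : Fin N → Matrix (Fin n) (Fin n) ℂ) = 0 := by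
            unfold Tot
            rw [blockDiagonal_zero, fromBlocks_zero]
          rw [h]
          exact Submodule.zero_mem _, rfl, fun _ _ _ => rfl⟩
        add_mem' := by
          rintro X Y ⟨Z, h1, h2, h3⟩ ⟨Z', h1', h2', h3'⟩
          refine ⟨Z + Z', ?_, ?_, fun i hi hne => ?_⟩
          · have h : Tot (0 : Matrix (Fin r₀) (Fin r₀) ℂ) (Z + Z') = Tot 0 Z + Tot 0 Z' := by
              unfold Tot
              rw [fromBlocks_add, ← blockDiagonal_add]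
              simp only [add_zero]
            rw [h]
            exact Submodule.add_mem _ h1 h1'
          · rw [Pi.add_apply, h2, h2']
          · rw [Pi.add_apply, h3 i hi hne, h3' i hi hne, add_zero]
        smul_mem' := by
          rintro c X ⟨Z, h1, h2, h3⟩
          refine ⟨c • Z, ?_, ?_, fun i hi hne => ?_⟩
          · have h : Tot (0 : Matrix (Fin r₀) (Fin r₀) ℂ) (c • Z) = c • Tot 0 Z := by
              unfold Tot
              rw [fromBlocks_smul, ← blockDiagonal_smul]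
              simp only [smul_zero]
            rw [h]
            exact Submodule.smul_mem _ _ h1
          · rw [Pi.smul_apply, h2]
          · rw [Pi.smul_apply, h3 i hi hne, smul_zero] }
    have hne : i ≠ j := fun h => hj (h ▸ hi)
    have h1 : spS J ≤ 𝔞 := by
      refine hperf 𝔞 fun X hX Y hY => ?_
      obtain ⟨Z, k1, k2, k3⟩ := hR i hi X hX
      obtain ⟨Z', k1', k2', k3'⟩ := hR i hi Y hY
      obtain ⟨c, hc⟩ := hsim Z k1 j
      obtain ⟨c', hc'⟩ := hsim Z' k1' j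
      obtain ⟨-, W, m1, m2, m3⟩ := hfull (sim_br hc hc')
      have k4 := hL _ k1 _ k1'
      rw [Tot_br, Matrix.mul_zero, sub_zero] at k4
      refine ⟨fun l => (Z l * Z' l - Z' l * Z l) - W l, ?_, ?_, fun i' hi' hne' => ?_⟩
      · have h := 𝔥.sub_mem k4 m1
        rw [Tot_sub, sub_zero] at h
        exact h
      · show (Z i * Z' i - Z' i * Z i) - W i = X * Y - Y * X
        rw [k2, k2', m3 i hi, sub_zero]
      · show (Z i' * Z' i' - Z' i' * Z i') - W i' = 0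
        rw [Finset.mem_insert] at hi'
        rcases hi' with rfl | hi'
        · rw [m2, sub_self]
        · rw [k3 i' hi' hne', m3 i' hi', Matrix.zero_mul, Matrix.mul_zero, sub_zero, sub_zero]
    exact h1 hX

/-- **the number of exceptional blocks** -/
theorem LG_dim {c r : ℕ} {w : ℤ} {Q : Matrix (Ix r₀ n N) (Ix r₀ n N) ℂ} {Lev : Ix r₀ n N → ℤ}
    (hE : Eig Lev Q (Tot φ₀ φ)) (hL : Lie' 𝔥) (hφ : Tot φ₀ φ ∈ 𝔥) (hbar : ∀ X ∈ 𝔥, mbar X ∈ 𝔥) (hp : ∀ j, Pol w J (φ j))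
    {𝔴 : Fin N → Submodule ℂ (Matrix (Fin n) (Fin n) ℂ)} (hcr : ∀ j, Crit c J (φ j) (𝔴 j))
    (hm : ∀ j, ∀ X ∈ spS J, ib j X ∈ 𝔊)
    (hcod : finrank ℂ 𝔊 ≤ finrank ℂ (𝔊 ⊓ (𝔥 ⊔ cjS Q (ppS ℂ Lev)) : Submodule ℂ (Matrix (Ix r₀ n N) (Ix r₀ n N) ℂ)) + r)
    {R : Finset (Fin N)} (hR : ∀ j ∉ R, ¬ spS J ≤ nj 𝔥 J R j) : Rᶜ.card * c ≤ r := by
  classical
  have hsp : ∀ j, 𝔴 j ≤ spS J := fun j => (hcr j).neg.trans (Submodule.span_le.2 fun X hX => hX.1)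
  let Φ : ((j : {j // j ∈ Rᶜ}) → 𝔴 j.1) →ₗ[ℂ] Matrix (Ix r₀ n N) (Ix r₀ n N) ℂ :=
    ∑ j : {j // j ∈ Rᶜ}, (ib j.1) ∘ₗ (𝔴 j.1).subtype ∘ₗ LinearMap.proj j
  have hsum : ∀ (s : Finset {j // j ∈ Rᶜ}) (Y : {j // j ∈ Rᶜ} → Matrix (Fin n) (Fin n) ℂ),
      ∑ j ∈ s, ib (r₀ := r₀) j.1 (Y j) = Tot 0 (∑ j ∈ s, Pi.single j.1 (Y j)) := by
    intro s Y
    induction s using Finset.induction_on with
    | empty =>
      rw [Finset.sum_empty, Finset.sum_empty]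
      unfold Tot
      rw [blockDiagonal_zero, fromBlocks_zero]
    | insert a s ha ih =>
      rw [Finset.sum_insert ha, Finset.sum_insert ha, ih, ib_apply]
      unfold Tot
      rw [fromBlocks_add, ← blockDiagonal_add]
      simp only [add_zero]
  have hΦ : ∀ X, Φ X = Tot 0 fun i => if h : i ∈ Rᶜ then (X ⟨i, h⟩ : Matrix (Fin n) (Fin n) ℂ) else 0 := by
    intro X
    have h0 : Φ X = ∑ j : {j // j ∈ Rᶜ}, ib j.1 (X j : Matrix (Fin n) (Fin n) ℂ) := by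
      simp only [Φ, LinearMap.sum_apply]
      rfl
    rw [h0, hsum Finset.univ fun j => (X j : Matrix (Fin n) (Fin n) ℂ)]
    congr 1
    funext i
    rw [Finset.sum_apply]
    by_cases hi : i ∈ Rᶜ
    · rw [dif_pos hi, Finset.sum_eq_single ⟨i, hi⟩]
      · rw [Pi.single_eq_same]
      · intro j _ hj
        rw [Pi.single_eq_of_ne]
        rintro rfl
        exact hj rfl
      · intro h
        exact absurd (Finset.mem_univ _) h
    · rw [dif_neg hi]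
      refine Finset.sum_eq_zero fun j _ => ?_
      rw [Pi.single_eq_of_ne]
      rintro rfl
      exact hi j.2
  have h1 := cod_sub Φ (V' := ⊤) (fun X _ => by
    show Φ X ∈ 𝔊
    simp only [Φ, LinearMap.sum_apply]
    exact Submodule.sum_mem _ fun j _ => hm j.1 _ (hsp j.1 (X j).2)) hcod
  have h2 : ∀ X, Φ X ∈ 𝔥 ⊔ cjS Q (ppS ℂ Lev) → ∀ j : {j // j ∈ Rᶜ}, (X j : Matrix (Fin n) (Fin n) ℂ) ∈ nj 𝔥 J R j.1 := by
    intro X hX j
    have h3 : Φ X ∈ 𝔥 := by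
      refine neg_part hE (fun Y hY => hL _ hφ _ hY) ?_ hX
      simp only [Φ, LinearMap.sum_apply]
      refine Submodule.sum_mem _ fun i _ => ?_
      have h4 := (hcr i.1).neg (X i).2
      show ib i.1 (X i : Matrix (Fin n) (Fin n) ℂ) ∈ _
      generalize (X i : Matrix (Fin n) (Fin n) ℂ) = Y₀ at h4
      clear hX h1
      induction h4 using Submodule.span_induction with
      | mem X hX =>
        obtain ⟨-, c, hc, hX⟩ := hX
        refine Submodule.subset_span ⟨c, hc, ?_⟩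
        rw [ad_ib, hX, map_smul]
      | zero => rw [map_zero]; exact Submodule.zero_mem _
      | add X Y _ _ hX hY => rw [map_add]; exact Submodule.add_mem _ hX hY
      | smul c X _ hX => rw [map_smul]; exact Submodule.smul_mem _ _ hX
    rw [hΦ] at h3
    refine ⟨hsp j.1 (X j).2, _, h3, ?_, fun i hi => ?_⟩
    · show (if h : j.1 ∈ Rᶜ then (X ⟨j.1, h⟩ : Matrix (Fin n) (Fin n) ℂ) else 0) = _
      rw [dif_pos j.2]
    · show (if h : i ∈ Rᶜ then (X ⟨i, h⟩ : Matrix (Fin n) (Fin n) ℂ) else 0) = 0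
      rw [dif_neg]
      rw [Finset.mem_compl, not_not]
      exact hi
  let ι : (⊤ ⊓ (𝔥 ⊔ cjS Q (ppS ℂ Lev)).comap Φ : Submodule ℂ ((j : {j // j ∈ Rᶜ}) → 𝔴 j.1)) →ₗ[ℂ]
      ((j : {j // j ∈ Rᶜ}) → (𝔴 j.1 ⊓ nj 𝔥 J R j.1 : Submodule ℂ (Matrix (Fin n) (Fin n) ℂ))) :=
    { toFun := fun X j => ⟨(X.1 j : Matrix (Fin n) (Fin n) ℂ), (X.1 j).2, h2 X.1 X.2.2 j⟩
      map_add' := fun X Y => rfl
      map_smul' := fun c X => rfl }
  have hι : Function.Injective ι := by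
    intro X Y h
    apply Subtype.ext
    funext j
    apply Subtype.ext
    have h3 : ι X j = ι Y j := congrFun h j
    exact congrArg (fun Z : (𝔴 j.1 ⊓ nj 𝔥 J R j.1 : Submodule ℂ (Matrix (Fin n) (Fin n) ℂ)) =>
      (Z : Matrix (Fin n) (Fin n) ℂ)) h3
  have h3 := LinearMap.finrank_le_finrank_of_injective hι
  rw [Module.finrank_pi_fintype] at h3
  rw [finrank_top, Module.finrank_pi_fintype] at h1
  have h4 : ∀ j : {j // j ∈ Rᶜ}, finrank ℂ (𝔴 j.1 ⊓ nj 𝔥 J R j.1 : Submodule ℂ (Matrix (Fin n) (Fin n) ℂ)) + c ≤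
      finrank ℂ (𝔴 j.1) := by
    intro j
    by_contra hcon
    refine hR j.1 (Finset.mem_compl.1 j.2) ?_
    have h5 : finrank ℂ (𝔴 j.1 ⊓ nj 𝔥 J R j.1 : Submodule ℂ (Matrix (Fin n) (Fin n) ℂ)) ≤ finrank ℂ (𝔴 j.1) :=
      Submodule.finrank_mono inf_le_left
    exact (hcr j.1).full _ (fun X hX => hX.1) (nj_br hL) (nj_bar hp hbar) (nj_phi hL hφ hp)
      (finrank ℂ (𝔴 j.1) - finrank ℂ (𝔴 j.1 ⊓ nj 𝔥 J R j.1 : Submodule ℂ (Matrix (Fin n) (Fin n) ℂ))) (by omega) (by omega)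
  have h5 := Finset.sum_le_sum fun (j : {j // j ∈ Rᶜ}) (_ : j ∈ Finset.univ) => h4 j
  rw [Finset.sum_add_distrib, Finset.sum_const, Finset.card_univ, Fintype.card_coe, smul_eq_mul] at h5
  omega

/-- **most blocks can be lifted** -/
theorem LG_main {c r : ℕ} {w : ℤ} {Q : Matrix (Ix r₀ n N) (Ix r₀ n N) ℂ} {Lev : Ix r₀ n N → ℤ}
    (hE : Eig Lev Q (Tot φ₀ φ)) (hL : Lie' 𝔥) (hφ : Tot φ₀ φ ∈ 𝔥) (hbar : ∀ X ∈ 𝔥, mbar X ∈ 𝔥) (hp : ∀ j, Pol w J (φ j))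
    (hperf : Perfect J)
    (hsim : ∀ Z : Fin N → Matrix (Fin n) (Fin n) ℂ, Tot 0 Z ∈ 𝔥 → ∀ j, ∃ c : ℂ, (Z j)ᵀ * J + J * Z j = c • J)
    {𝔴 : Fin N → Submodule ℂ (Matrix (Fin n) (Fin n) ℂ)} (hcr : ∀ j, Crit c J (φ j) (𝔴 j))
    (hm : ∀ j, ∀ X ∈ spS J, ib j X ∈ 𝔊)
    (hcod : finrank ℂ 𝔊 ≤ finrank ℂ (𝔊 ⊓ (𝔥 ⊔ cjS Q (ppS ℂ Lev)) : Submodule ℂ (Matrix (Ix r₀ n N) (Ix r₀ n N) ℂ)) + r) :
    ∃ S : Finset (Fin N), S.card * c ≤ r ∧ LG 𝔥 J Sᶜ := by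
  classical
  obtain ⟨R, hR, hmax⟩ := Finset.exists_max_image (Finset.univ.filter fun R : Finset (Fin N) => LG 𝔥 J R) Finset.card
    ⟨∅, Finset.mem_filter.2 ⟨Finset.mem_univ _, fun i hi => absurd hi (Finset.notMem_empty _)⟩⟩
  rw [Finset.mem_filter] at hR
  refine ⟨Rᶜ, LG_dim hE hL hφ hbar hp hcr hm hcod fun j hj hfull => ?_, by rw [compl_compl]; exact hR.2⟩
  have h1 := hmax (insert j R) (Finset.mem_filter.2 ⟨Finset.mem_univ _, LG_insert hL hperf hsim hj hR.2 hfull⟩)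
  rw [Finset.card_insert_of_notMem hj] at h1
  omega

end main

end Pool.Agent.Helper880_EX
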