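import Pool.Agent.Helper880_EX.Lie

/-!
# The Mumford-Tate Lie algebra
-/

set_option autoImplicit false
set_option linter.unusedSectionVars false
set_option linter.unusedVariables false

open Matrix Module

namespace Pool.Agent.Helper880_EX

open Pool.Agent.Helper880_LF (spS mem_spS)
open Pool.Agent.Helper880_R3 (Ix Tot Tot_mul Tot_inj ib ib_apply ib_mul)
open Pool.Agent.Helper880_ZP
open Pool.Agent.Helper880_HC (Ten act act_apply act_add act_smul act_zero act_br tC mapQ mapQ_Tot mapQ_act mu_mul mC one one_apply'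
  one_sum hodge_span Tot_sub)

variable {n N r₀ d₀ d : ℕ}

/-- the block matrices which respect the polarisations and all Hodge tensors, up to scalars -/
def mtA (φ₀ : Matrix (Fin r₀) (Fin r₀) ℂ) (φ : Fin N → Matrix (Fin n) (Fin n) ℂ) (J : Matrix (Fin n) (Fin n) ℚ) :
    Submodule ℂ (Matrix (Ix r₀ n N) (Ix r₀ n N) ℂ) where
  carrier := {Y | ∃ (x : Matrix (Fin r₀) (Fin r₀) ℂ) (X : Fin N → Matrix (Fin n) (Fin n) ℂ), Y = Tot x X ∧
    (∀ j, ∃ c : ℂ, (X j)ᵀ * mC J + mC J * X j = c • mC J) ∧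
    ∀ (d₀ d : ℕ) (τ : Fin d → Fin N) (f : Ten ℚ d₀ d r₀ n), (∃ q : ℤ, act τ φ₀ φ (tC f) = (q : ℂ) • tC f) →
      ∃ c : ℂ, act τ x X (tC f) = c • tC f}
  zero_mem' := by
    refine ⟨0, 0, ?_, fun j => ⟨0, ?_⟩, fun d₀ d τ f _ => ⟨0, ?_⟩⟩
    · unfold Tot
      rw [Matrix.blockDiagonal_zero, Matrix.fromBlocks_zero]
    · rw [Pi.zero_apply, transpose_zero, Matrix.zero_mul, Matrix.mul_zero, add_zero, zero_smul]
    · rw [act_zero, LinearMap.zero_apply, zero_smul]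
  add_mem' := by
    rintro _ _ ⟨x, X, rfl, h1, h2⟩ ⟨y, Y, rfl, h1', h2'⟩
    refine ⟨x + y, X + Y, ?_, fun j => ?_, fun d₀ d τ f hf => ?_⟩
    · unfold Tot
      rw [Matrix.fromBlocks_add, ← Matrix.blockDiagonal_add]
      simp only [add_zero]
    · obtain ⟨c, hc⟩ := h1 j
      obtain ⟨c', hc'⟩ := h1' j
      refine ⟨c + c', ?_⟩
      rw [Pi.add_apply, transpose_add, Matrix.add_mul, Matrix.mul_add, add_smul, ← hc, ← hc']
      abel
    · obtain ⟨c, hc⟩ := h2 d₀ d τ f hf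
      obtain ⟨c', hc'⟩ := h2' d₀ d τ f hf
      exact ⟨c + c', by rw [act_add, LinearMap.add_apply, hc, hc', add_smul]⟩
  smul_mem' := by
    rintro a _ ⟨x, X, rfl, h1, h2⟩
    refine ⟨a • x, a • X, ?_, fun j => ?_, fun d₀ d τ f hf => ?_⟩
    · unfold Tot
      rw [Matrix.fromBlocks_smul, ← Matrix.blockDiagonal_smul]
      simp only [smul_zero]
    · obtain ⟨c, hc⟩ := h1 j
      refine ⟨a * c, ?_⟩
      rw [Pi.smul_apply, transpose_smul, Matrix.smul_mul, Matrix.mul_smul, ← smul_add, hc, smul_smul]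
    · obtain ⟨c, hc⟩ := h2 d₀ d τ f hf
      exact ⟨a * c, by rw [act_smul, LinearMap.smul_apply, hc, smul_smul]⟩

variable {φ₀ : Matrix (Fin r₀) (Fin r₀) ℂ} {φ : Fin N → Matrix (Fin n) (Fin n) ℂ} {J : Matrix (Fin n) (Fin n) ℚ}

theorem mtA_lie : Lie' (mtA φ₀ φ J) := by
  rintro _ ⟨x, X, rfl, h1, h2⟩ _ ⟨y, Y, rfl, h1', h2'⟩
  refine ⟨x * y - y * x, fun j => X j * Y j - Y j * X j, Tot_br _ _ _ _, fun j => ⟨0, ?_⟩, fun d₀ d τ f hf => ⟨0, ?_⟩⟩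
  · obtain ⟨c, hc⟩ := h1 j
    obtain ⟨c', hc'⟩ := h1' j
    have h3 := sim_br hc hc'
    rw [mem_spS] at h3
    rw [h3, zero_smul]
  · obtain ⟨c, hc⟩ := h2 d₀ d τ f hf
    obtain ⟨c', hc'⟩ := h2' d₀ d τ f hf
    rw [← act_br, LinearMap.sub_apply, Module.End.mul_apply, Module.End.mul_apply, hc, hc', map_smul, map_smul, hc, hc',
      smul_smul, smul_smul, mul_comm, sub_self, zero_smul]

/-- a space which is stable under all rational linear forms is defined over `ℚ` -/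
theorem rat_of {B : Type} [Fintype B] [DecidableEq B] {W : Submodule ℂ (Matrix B B ℂ)}
    (h : ∀ μ : ℂ →ₗ[ℚ] ℚ, ∀ Y ∈ W, mapQ μ Y ∈ W) : DefOver K₀ W := by
  classical
  refine le_antisymm ?_ (Submodule.span_le.2 fun X hX => hX.1)
  intro Y hY
  set b := Module.Basis.ofVectorSpace ℚ ℂ with hb
  have hmem : ∀ i, mapQ (b.coord i) Y ∈ Submodule.span ℂ {X | X ∈ W ∧ ∀ i j, X i j ∈ K₀} := by
    intro i
    exact Submodule.subset_span ⟨h _ Y hY, fun a a' => mem_K₀.2 ⟨_, rfl⟩⟩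
  set s : Finset _ := Finset.univ.biUnion fun p : B × B => (b.repr (Y p.1 p.2)).support with hs
  have hsum : Y = ∑ i ∈ s, b i • mapQ (b.coord i) Y := by
    ext p q
    rw [Matrix.sum_apply]
    have h1 := b.linearCombination_repr (Y p q)
    have h2 : (b.repr (Y p q)).support ⊆ s := fun i hi => Finset.mem_biUnion.2 ⟨(p, q), Finset.mem_univ _, hi⟩
    have h3 := Finsupp.sum_of_support_subset (b.repr (Y p q)) h2 (fun i a => a • b i) (fun i _ => zero_smul ℚ (b i))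
    rw [Finsupp.linearCombination_apply, h3] at h1
    conv_lhs => rw [← h1]
    refine Finset.sum_congr rfl fun i _ => ?_
    show (b.repr (Y p q)) i • b i = b i * (((b.repr (Y p q)) i : ℚ) : ℂ)
    rw [Rat.smul_def, mul_comm]
  rw [hsum]
  exact Submodule.sum_mem _ fun i _ => Submodule.smul_mem _ _ (hmem i)

/-- **the Mumford-Tate Lie algebra is rational** -/
theorem mtA_rat : DefOver K₀ (mtA φ₀ φ J) := by
  refine rat_of ?_
  rintro μ _ ⟨x, X, rfl, h1, h2⟩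
  refine ⟨mapQ μ x, fun j => mapQ μ (X j), mapQ_Tot _ _ _, fun j => ?_, fun d₀ d τ f hf => ?_⟩
  · obtain ⟨c, hc⟩ := h1 j
    refine ⟨((μ c : ℚ) : ℂ), ?_⟩
    ext a b
    have h3 := congrArg μ (congrFun (congrFun hc a) b)
    rw [Matrix.add_apply, Matrix.mul_apply, Matrix.mul_apply, Matrix.smul_apply, map_add, map_sum, map_sum] at h3
    rw [Matrix.add_apply, Matrix.mul_apply, Matrix.mul_apply, Matrix.smul_apply]
    have h4 := congrArg (fun q : ℚ => (q : ℂ)) h3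
    simp only [Rat.cast_add, Rat.cast_sum] at h4
    refine Eq.trans ?_ (h4.trans ?_)
    · congr 1
      · refine Finset.sum_congr rfl fun l _ => ?_
        show ((μ (X j l a) : ℚ) : ℂ) * ((J l b : ℚ) : ℂ) = ((μ (X j l a * ((J l b : ℚ) : ℂ)) : ℚ) : ℂ)
        rw [mu_mul, Rat.cast_mul]
      · refine Finset.sum_congr rfl fun l _ => ?_
        show ((J a l : ℚ) : ℂ) * ((μ (X j l b) : ℚ) : ℂ) = ((μ (((J a l : ℚ) : ℂ) * X j l b) : ℚ) : ℂ)
        rw [mul_comm ((J a l : ℚ) : ℂ) (X j l b), mu_mul, Rat.cast_mul, mul_comm]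
    · show ((μ (c * ((J a b : ℚ) : ℂ)) : ℚ) : ℂ) = ((μ c : ℚ) : ℂ) * ((J a b : ℚ) : ℂ)
      rw [mu_mul, Rat.cast_mul]
  · obtain ⟨c, hc⟩ := h2 d₀ d τ f hf
    refine ⟨((μ c : ℚ) : ℂ), ?_⟩
    funext u v
    rw [mapQ_act, hc]
    show (((μ (c * (f u v : ℂ))) : ℚ) : ℂ) = ((μ c : ℚ) : ℂ) * (f u v : ℂ)
    rw [mu_mul, Rat.cast_mul]

theorem mtA_phi {w : ℤ} (hp : ∀ j, Pol w (mC J) (φ j)) : Tot φ₀ φ ∈ mtA φ₀ φ J :=
  ⟨φ₀, φ, rfl, fun j => ⟨w, (hp j).skew⟩, fun _ _ _ _ ⟨q, hq⟩ => ⟨q, hq⟩⟩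

theorem mtA_sim (Z : Fin N → Matrix (Fin n) (Fin n) ℂ) (h : Tot 0 Z ∈ mtA φ₀ φ J) (j : Fin N) :
    ∃ c : ℂ, (Z j)ᵀ * mC J + mC J * Z j = c • mC J := by
  obtain ⟨x, X, he, h1, -⟩ := h
  obtain ⟨-, h2⟩ := Tot_inj he
  rw [h2]
  exact h1 j

/-- a perfect Lie algebra which multiplies a tensor by scalars kills it -/
theorem kill_perf {τ : Fin d → Fin N} {f : Ten ℂ d₀ d r₀ n} {j : Fin N} {J : Matrix (Fin n) (Fin n) ℂ} (hperf : Perfect J)
    (h : ∀ X ∈ spS J, ∃ c : ℂ, one τ f j X = c • f) : ∀ X ∈ spS J, one τ f j X = 0 := by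
  refine hperf (LinearMap.ker (one τ f j)) fun X hX Y hY => ?_
  rw [LinearMap.mem_ker]
  obtain ⟨c, hc⟩ := h X hX
  obtain ⟨c', hc'⟩ := h Y hY
  have h1 := act_br (K := ℂ) (d₀ := d₀) (r₀ := r₀) τ 0 0 (Pi.single j X) (Pi.single j Y)
  have h2 : (fun i => (Pi.single j X : Fin N → Matrix (Fin n) (Fin n) ℂ) i * (Pi.single j Y : Fin N → _) i -
      (Pi.single j Y : Fin N → _) i * (Pi.single j X : Fin N → _) i) = Pi.single j (X * Y - Y * X) := by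
    funext i
    by_cases h : i = j
    · subst h
      rw [Pi.single_eq_same, Pi.single_eq_same, Pi.single_eq_same]
    · rw [Pi.single_eq_of_ne h, Pi.single_eq_of_ne h, Pi.single_eq_of_ne h, Matrix.mul_zero, sub_zero]
  rw [h2, Matrix.mul_zero, sub_zero] at h1
  have h3 := congrArg (fun T : Module.End ℂ (Ten ℂ d₀ d r₀ n) => T f) h1
  simp only [LinearMap.sub_apply, Module.End.mul_apply] at h3
  rw [one_apply'] at hc hc'
  rw [hc, hc', map_smul, map_smul, hc, hc', smul_smul, smul_smul, mul_comm, sub_self] at h3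
  exact h3.symm

/-- Hodge tensors on the good blocks are invariant -/
theorem kill {R : Finset (Fin N)} (hperf : Perfect (mC J)) (hR : LG (mtA φ₀ φ J) (mC J) R) {τ : Fin d → Fin N}
    {f : Ten ℚ d₀ d r₀ n} (hτ : ∀ l, τ l ∈ R) (hf : ∃ q : ℤ, act τ φ₀ φ (tC f) = (q : ℂ) • tC f) (j : Fin N) :
    ∀ X ∈ spS (mC J), one τ (tC f) j X = 0 := by
  by_cases hj : j ∈ R
  · refine kill_perf hperf fun X hX => ?_
    obtain ⟨Z, ⟨x, X', he, -, h2⟩, h3, h4⟩ := hR j hj X hX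
    obtain ⟨hx, hX'⟩ := Tot_inj he
    obtain ⟨c, hc⟩ := h2 d₀ d τ f hf
    refine ⟨c, ?_⟩
    rw [← hc, one_apply', ← hx, ← hX']
    funext u v
    rw [act_apply, act_apply]
    congr 1
    refine Finset.sum_congr rfl fun l _ => ?_
    by_cases hl : τ l = j
    · rw [hl, Pi.single_eq_same, h3]
    · rw [Pi.single_eq_of_ne hl, h4 _ (hτ l) hl]
  · intro X hX
    funext u v
    rw [one_sum]
    refine Finset.sum_eq_zero fun l _ => ?_
    rw [if_neg]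
    rintro rfl
    exact hj (hτ l)

/-- **Hodge tensors outside of the exceptional blocks** -/
theorem exc {𝔊 : Submodule ℂ (Matrix (Ix r₀ n N) (Ix r₀ n N) ℂ)} {c r : ℕ} {w : ℤ} {Q : Matrix (Ix r₀ n N) (Ix r₀ n N) ℂ}
    {Lev : Ix r₀ n N → ℤ} (hE : Eig Lev Q (Tot φ₀ φ)) (hp : ∀ j, Pol w (mC J) (φ j)) (hperf : Perfect (mC J))
    {𝔴 : Fin N → Submodule ℂ (Matrix (Fin n) (Fin n) ℂ)} (hcr : ∀ j, Crit c (mC J) (φ j) (𝔴 j))
    (hm : ∀ j, ∀ X ∈ spS (mC J), ib j X ∈ 𝔊)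
    (hcod : finrank ℂ 𝔊 ≤ finrank ℂ (𝔊 ⊓ (mtA φ₀ φ J ⊔ cjS Q (ppS ℂ Lev)) :
      Submodule ℂ (Matrix (Ix r₀ n N) (Ix r₀ n N) ℂ)) + r) {ε : ℤ} (hε : ε = 1 ∨ ε = -1) (hJ : Jᵀ = (ε : ℚ) • J)
    (hdet : IsUnit J.det) :
    ∃ S : Finset (Fin N), S.card * c ≤ r ∧ ∀ (d₀ d : ℕ) (τ : Fin d → Fin N) (f : Ten ℚ d₀ d r₀ n), (∀ l, τ l ∉ S) →
      (ε = 1 → ∀ j, Fintype.card {l // τ l = j} < n) → (∃ q : ℤ, act τ φ₀ φ (tC f) = (q : ℂ) • tC f) →
      f ∈ Submodule.span ℚ {F : Ten ℚ d₀ d r₀ n | ∃ (m : ℕ) (e : Fin m × Fin 2 ≃ Fin d) (g : (Fin d₀ → Fin r₀) → ℚ),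
        (∀ l, τ (e (l, 0)) = τ (e (l, 1))) ∧
        (∃ c : ℤ, ∀ u, ∑ k, ∑ a, φ₀ (u k) a * (g (Function.update u k a) : ℂ) = c * (g u : ℂ)) ∧
        F = fun u v => g u * ∏ l, J⁻¹ (v (e (l, 0))) (v (e (l, 1)))} := by
  obtain ⟨S, h1, h2⟩ := LG_main hE mtA_lie (mtA_phi hp) (rat_bar mtA_rat) hp hperf mtA_sim hcr hm hcod
  refine ⟨S, h1, fun d₀ d τ f hτ hcard hf => ?_⟩
  obtain ⟨q, hq⟩ := hf
  exact hodge_span hε hJ hdet hp (kill hperf h2 (fun l => Finset.mem_compl.2 (hτ l)) ⟨q, hq⟩) hcard hq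

end Pool.Agent.Helper880_EX
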