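import Pool.Agent.Helper880_EX.Gen

/-!
# Simple monodromy Lie algebras
-/

set_option autoImplicit false
set_option linter.unusedSectionVars false
set_option linter.unusedVariables false

open Matrix Module

namespace Pool.Agent.Helper880_EX

open Pool.Agent.Helper880_R3 (Ix Tot Tot_mul Tot_inj ib ib_apply ib_mul)
open Pool.Agent.Helper880_ZP
open Pool.Agent.Helper880_HC (mapQ mapQ_Tot mu_mul Tot_sub)

variable {n : ℕ}

/-- a rational Lie algebra without proper rational ideals which is not abelian -/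
structure QSi (𝔪 : Submodule ℂ (Matrix (Fin n) (Fin n) ℂ)) : Prop where
  /-- rational -/
  rat : DefOver K₀ 𝔪
  /-- Lie algebra -/
  lie : Lie' 𝔪
  /-- not abelian -/
  ne : ∃ X ∈ 𝔪, ∃ Y ∈ 𝔪, X * Y ≠ Y * X
  /-- no ideals -/
  smp : ∀ 𝔦 : Submodule ℂ (Matrix (Fin n) (Fin n) ℂ), 𝔦 ≤ 𝔪 → DefOver K₀ 𝔦 → (∀ X ∈ 𝔪, ∀ Y ∈ 𝔦, X * Y - Y * X ∈ 𝔦) → 𝔦 ≠ ⊥ → 𝔦 = 𝔪

variable {𝔪 : Submodule ℂ (Matrix (Fin n) (Fin n) ℂ)}

theorem QSi.prf (h : QSi 𝔪) : Prf 𝔪 := by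
  set 𝔡 : Submodule ℂ (Matrix (Fin n) (Fin n) ℂ) := Submodule.span ℂ {W | ∃ X ∈ 𝔪, ∃ Y ∈ 𝔪, W = X * Y - Y * X} with h𝔡
  have h1 : 𝔡 ≤ 𝔪 := by
    refine Submodule.span_le.2 ?_
    rintro _ ⟨X, hX, Y, hY, rfl⟩
    exact h.lie X hX Y hY
  have h2 : ∀ X ∈ 𝔪, ∀ Y ∈ 𝔡, X * Y - Y * X ∈ 𝔡 := fun X hX Y hY => Submodule.subset_span ⟨X, hX, Y, h1 hY, rfl⟩
  have h3 : ratcl 𝔡 = 𝔪 := by
    refine h.smp _ (ratcl_le h1 h.rat) (ratcl_rat _) (ratcl_ideal h.rat h2) fun h3 => ?_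
    obtain ⟨X, hX, Y, hY, hne⟩ := h.ne
    refine hne (sub_eq_zero.1 ?_)
    have h4 : X * Y - Y * X ∈ ratcl 𝔡 := le_ratcl _ (Submodule.subset_span ⟨X, hX, Y, hY, rfl⟩)
    rw [h3, Submodule.mem_bot] at h4
    exact h4
  have h4 : DefOver K₀ 𝔡 := by
    refine le_antisymm ?_ (Submodule.span_le.2 fun X hX => hX.1)
    refine Submodule.span_le.2 ?_
    rintro _ ⟨X, hX, Y, hY, rfl⟩
    have h5 : ∀ X' ∈ 𝔪, (∀ a b, X' a b ∈ K₀) → ∀ Y' ∈ 𝔪, X' * Y' - Y' * X' ∈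
        Submodule.span ℂ {X | X ∈ 𝔡 ∧ ∀ a b, X a b ∈ K₀} := by
      intro X' hX' hr Y' hY'
      rw [h.rat] at hY'
      induction hY' using Submodule.span_induction with
      | mem Y hY =>
        refine Submodule.subset_span ⟨Submodule.subset_span ⟨X', hX', Y, hY.1, rfl⟩, fun a b => ?_⟩
        rw [Matrix.sub_apply, Matrix.mul_apply, Matrix.mul_apply]
        exact K₀.sub_mem (K₀.sum_mem fun l _ => K₀.mul_mem (hr _ _) (hY.2 _ _))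
          (K₀.sum_mem fun l _ => K₀.mul_mem (hY.2 _ _) (hr _ _))
      | zero => rw [Matrix.mul_zero, Matrix.zero_mul, sub_zero]; exact Submodule.zero_mem _
      | add Z Z' _ _ hZ hZ' =>
        have h1 : X' * (Z + Z') - (Z + Z') * X' = (X' * Z - Z * X') + (X' * Z' - Z' * X') := by noncomm_ring
        rw [h1]
        exact Submodule.add_mem _ hZ hZ'
      | smul c Z _ hZ =>
        rw [Matrix.mul_smul, Matrix.smul_mul, ← smul_sub]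
        exact Submodule.smul_mem _ _ hZ
    rw [h.rat] at hX
    show X * Y - Y * X ∈ Submodule.span ℂ {X | X ∈ 𝔡 ∧ ∀ a b, X a b ∈ K₀}
    induction hX using Submodule.span_induction with
    | mem X hX => exact h5 X hX.1 hX.2 Y hY
    | zero => rw [Matrix.mul_zero, Matrix.zero_mul, sub_zero]; exact Submodule.zero_mem _
    | add X X' _ _ hX hX' =>
      have h1 : (X + X') * Y - Y * (X + X') = (X * Y - Y * X) + (X' * Y - Y * X') := by noncomm_ring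
      rw [h1]
      exact Submodule.add_mem _ hX hX'
    | smul c X _ hX =>
      rw [Matrix.mul_smul, Matrix.smul_mul, ← smul_sub]
      exact Submodule.smul_mem _ _ hX
  have h5 : ratcl 𝔡 ≤ 𝔡 := ratcl_le le_rfl h4
  rw [h3] at h5
  exact h5

/-- the smallest Lie algebra which contains all elements of degree different from zero -/
def gnS (𝔪 : Submodule ℂ (Matrix (Fin n) (Fin n) ℂ)) (φ : Matrix (Fin n) (Fin n) ℂ) : Submodule ℂ (Matrix (Fin n) (Fin n) ℂ) :=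
  sInf {𝔞 | Lie' 𝔞 ∧ ∀ X ∈ 𝔪, ∀ a : ℤ, a ≠ 0 → φ * X - X * φ = (a : ℂ) • X → X ∈ 𝔞}

theorem gnS_mem {φ : Matrix (Fin n) (Fin n) ℂ} {X : Matrix (Fin n) (Fin n) ℂ} (hX : X ∈ 𝔪) {a : ℤ} (ha : a ≠ 0)
    (h : φ * X - X * φ = (a : ℂ) • X) : X ∈ gnS 𝔪 φ := by
  unfold gnS
  rw [Submodule.mem_sInf]
  exact fun 𝔞 h𝔞 => h𝔞.2 X hX a ha h

theorem gnS_lie {φ : Matrix (Fin n) (Fin n) ℂ} : Lie' (gnS 𝔪 φ) := by
  intro X hX Y hY
  unfold gnS at hX hY ⊢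
  rw [Submodule.mem_sInf] at hX hY ⊢
  exact fun 𝔞 h𝔞 => h𝔞.1 X (hX 𝔞 h𝔞) Y (hY 𝔞 h𝔞)

theorem gnS_le {φ : Matrix (Fin n) (Fin n) ℂ} {𝔞 : Submodule ℂ (Matrix (Fin n) (Fin n) ℂ)} (h1 : Lie' 𝔞)
    (h2 : ∀ X ∈ 𝔪, ∀ a : ℤ, a ≠ 0 → φ * X - X * φ = (a : ℂ) • X → X ∈ 𝔞) : gnS 𝔪 φ ≤ 𝔞 := sInf_le ⟨h1, h2⟩

theorem jac (X Y Z : Matrix (Fin n) (Fin n) ℂ) :
    X * (Y * Z - Z * Y) - (Y * Z - Z * Y) * X = ((X * Y - Y * X) * Z - Z * (X * Y - Y * X)) +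
      (Y * (X * Z - Z * X) - (X * Z - Z * X) * Y) := by
  noncomm_ring

/-- it is an ideal -/
theorem gnS_ideal {φ Q : Matrix (Fin n) (Fin n) ℂ} {lev : Fin n → ℤ} (hE : Eig lev Q φ) (h𝔪 : Lie' 𝔪)
    (hst : ∀ Y ∈ 𝔪, φ * Y - Y * φ ∈ 𝔪) : ∀ X ∈ 𝔪, ∀ Y ∈ gnS 𝔪 φ, X * Y - Y * X ∈ gnS 𝔪 φ := by
  have h0 : ∀ X ∈ 𝔪, φ * X - X * φ = 0 → ∀ Y ∈ gnS 𝔪 φ, X * Y - Y * X ∈ gnS 𝔪 φ := by
    intro X hX hX0
    let 𝔞 : Submodule ℂ (Matrix (Fin n) (Fin n) ℂ) :=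
      { carrier := {Y | Y ∈ gnS 𝔪 φ ∧ X * Y - Y * X ∈ gnS 𝔪 φ}
        zero_mem' := ⟨Submodule.zero_mem _, by rw [Matrix.mul_zero, Matrix.zero_mul, sub_zero]; exact Submodule.zero_mem _⟩
        add_mem' := by
          rintro Y Z ⟨h1, h2⟩ ⟨h3, h4⟩
          refine ⟨Submodule.add_mem _ h1 h3, ?_⟩
          have h5 : X * (Y + Z) - (Y + Z) * X = (X * Y - Y * X) + (X * Z - Z * X) := by noncomm_ring
          rw [h5]
          exact Submodule.add_mem _ h2 h4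
        smul_mem' := by
          rintro c Y ⟨h1, h2⟩
          refine ⟨Submodule.smul_mem _ _ h1, ?_⟩
          rw [Matrix.mul_smul, Matrix.smul_mul, ← smul_sub]
          exact Submodule.smul_mem _ _ h2 }
    have h1 : gnS 𝔪 φ ≤ 𝔞 := by
      refine gnS_le ?_ ?_
      · rintro Y ⟨h1, h2⟩ Z ⟨h3, h4⟩
        refine ⟨gnS_lie _ h1 _ h3, ?_⟩
        rw [jac]
        exact Submodule.add_mem _ (gnS_lie _ h2 _ h3) (gnS_lie _ h1 _ h4)
      · intro Y hY a ha hYa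
        refine ⟨gnS_mem hY ha hYa, gnS_mem (h𝔪 _ hX _ hY) ha ?_⟩
        rw [jac, hX0, hYa, Matrix.zero_mul, Matrix.mul_zero, sub_zero, zero_add, Matrix.mul_smul, Matrix.smul_mul, ← smul_sub]
    exact fun Y hY => (h1 hY).2
  intro X hX Y hY
  have h1 := mat_span hE hst hX
  clear hX
  induction h1 using Submodule.span_induction with
  | mem X hX =>
    obtain ⟨hX, a, ha⟩ := hX
    by_cases ha0 : a = 0
    · rw [ha0, Int.cast_zero, zero_smul] at ha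
      exact h0 X hX ha Y hY
    · exact gnS_lie _ (gnS_mem hX ha0 ha) _ hY
  | zero => rw [Matrix.mul_zero, Matrix.zero_mul, sub_zero]; exact Submodule.zero_mem _
  | add X X' _ _ hX hX' =>
    have h1 : (X + X') * Y - Y * (X + X') = (X * Y - Y * X) + (X' * Y - Y * X') := by noncomm_ring
    rw [h1]
    exact Submodule.add_mem _ hX hX'
  | smul c X _ hX =>
    rw [Matrix.mul_smul, Matrix.smul_mul, ← smul_sub]
    exact Submodule.smul_mem _ _ hX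

/-- **the criterion for simple Lie algebras** -/
theorem QSi.cod (h : QSi 𝔪) {φ Q : Matrix (Fin n) (Fin n) ℂ} {lev : Fin n → ℤ} (hE : Eig lev Q φ) {w : ℤ}
    (hbar : mbar φ = (w : ℂ) • (1 : Matrix (Fin n) (Fin n) ℂ) - φ) (hst : ∀ Y ∈ 𝔪, φ * Y - Y * φ ∈ 𝔪)
    (hne : ∃ X ∈ 𝔪, φ * X ≠ X * φ) : Cod 1 𝔪 φ := by
  intro 𝔫 h1 h2 h3 h4 h5
  by_contra hcon
  refine h5 (le_antisymm h1 ?_)
  have h6 : finrank ℂ (ngS 𝔪 φ ⊓ 𝔫 : Submodule ℂ (Matrix (Fin n) (Fin n) ℂ)) ≤ finrank ℂ (ngS 𝔪 φ) :=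
    Submodule.finrank_mono inf_le_left
  have h7 : ngS 𝔪 φ ⊓ 𝔫 = ngS 𝔪 φ := Submodule.eq_of_le_of_finrank_le inf_le_left (by omega)
  have h8 : ngS 𝔪 φ ≤ 𝔫 := by
    rw [← h7]
    exact inf_le_right
  have hb : ∀ X ∈ 𝔪, ∀ a : ℤ, φ * X - X * φ = (a : ℂ) • X → φ * mbar X - mbar X * φ = ((-a : ℤ) : ℂ) • mbar X := by
    intro X hX a ha
    have k1 := congrArg mbar ha
    have k2 : mbar (φ * X - X * φ) = mbar φ * mbar X - mbar X * mbar φ := by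
      rw [mbar_sub, mbar_mul, mbar_mul]
    rw [k2, hbar, mbar_smul] at k1
    have k3 : star ((a : ℤ) : ℂ) = (a : ℂ) := map_intCast (starRingEnd ℂ) a
    rw [k3, Matrix.sub_mul, Matrix.mul_sub, Matrix.smul_mul, Matrix.mul_smul, Matrix.one_mul, Matrix.mul_one] at k1
    rw [Int.cast_neg, neg_smul, ← k1]
    abel
  have h9 : gnS 𝔪 φ ≤ 𝔫 := by
    refine gnS_le h3 fun X hX a ha hXa => ?_
    rcases lt_or_gt_of_ne ha with ha | ha
    · exact h8 (Submodule.subset_span ⟨hX, a, ha, hXa⟩)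
    · have k1 : mbar X ∈ 𝔫 := h8 (Submodule.subset_span ⟨rat_bar h.rat X hX, -a, by omega, hb X hX a hXa⟩)
      have k2 := rat_bar h2 _ k1
      rwa [mbar_mbar] at k2
  have h10 : ratcl (gnS 𝔪 φ) = 𝔪 := by
    refine h.smp _ (ratcl_le (h9.trans h1) h.rat) (ratcl_rat _) (ratcl_ideal h.rat (gnS_ideal hE h.lie hst)) fun h10 => ?_
    obtain ⟨X, hX, hXne⟩ := hne
    have h11 : gnS 𝔪 φ = ⊥ := le_bot_iff.1 (h10 ▸ le_ratcl _)
    have h12 : ∀ Y ∈ 𝔪, φ * Y - Y * φ = 0 := by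
      intro Y hY
      have h1 := mat_span hE hst hY
      clear hY
      induction h1 using Submodule.span_induction with
      | mem Y hY =>
        obtain ⟨hY, a, ha⟩ := hY
        by_cases ha0 : a = 0
        · rw [ha0, Int.cast_zero, zero_smul] at ha
          exact ha
        · have h13 := gnS_mem hY ha0 ha
          rw [h11, Submodule.mem_bot] at h13
          rw [h13, Matrix.mul_zero, Matrix.zero_mul, sub_zero]
      | zero => rw [Matrix.mul_zero, Matrix.zero_mul, sub_zero]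
      | add Y Y' _ _ hY hY' =>
        have h1 : φ * (Y + Y') - (Y + Y') * φ = (φ * Y - Y * φ) + (φ * Y' - Y' * φ) := by noncomm_ring
        rw [h1, hY, hY', add_zero]
      | smul c Y _ hY =>
        rw [Matrix.mul_smul, Matrix.smul_mul, ← smul_sub, hY, smul_zero]
    exact hXne (sub_eq_zero.1 (h12 X hX))
  have h11 : ratcl (gnS 𝔪 φ) ≤ 𝔫 := ratcl_le h9 h2
  rw [h10] at h11
  exact h11

end Pool.Agent.Helper880_EX
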