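import Pool.Agent.Helper880_EX.Mt
import Pool.Agent.Helper880_EX.Gen
import Pool.Agent.Helper880_EX.Smp

/-!
# Hodge tensors and the Lie algebra of the monodromy group
-/

set_option autoImplicit false
set_option linter.unusedSectionVars false
set_option linter.unusedVariables false

open Matrix Module

namespace Pool.Agent.Helper880_EX

open Pool.Agent.Helper880_R3 (Ix Tot Tot_mul Tot_inj ib ib_apply ib_mul)
open Pool.Agent.Helper880_ZP
open Pool.Agent.Helper880_HC (Ten act act_apply act_add act_smul act_zero act_br tC mapQ mapQ_Tot mapQ_act mu_mul one one_apply'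
  one_sum Tot_sub)

variable {n N r₀ d₀ d : ℕ}

/-- the block matrices which multiply all Hodge tensors by scalars -/
def mtB (φ₀ : Matrix (Fin r₀) (Fin r₀) ℂ) (φ : Fin N → Matrix (Fin n) (Fin n) ℂ) :
    Submodule ℂ (Matrix (Ix r₀ n N) (Ix r₀ n N) ℂ) where
  carrier := {Y | ∃ (x : Matrix (Fin r₀) (Fin r₀) ℂ) (X : Fin N → Matrix (Fin n) (Fin n) ℂ), Y = Tot x X ∧
    ∀ (d₀ d : ℕ) (τ : Fin d → Fin N) (f : Ten ℚ d₀ d r₀ n), (∃ q : ℤ, act τ φ₀ φ (tC f) = (q : ℂ) • tC f) →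
      ∃ c : ℂ, act τ x X (tC f) = c • tC f}
  zero_mem' := by
    refine ⟨0, 0, ?_, fun d₀ d τ f _ => ⟨0, ?_⟩⟩
    · unfold Tot
      rw [Matrix.blockDiagonal_zero, Matrix.fromBlocks_zero]
    · rw [act_zero, LinearMap.zero_apply, zero_smul]
  add_mem' := by
    rintro _ _ ⟨x, X, rfl, h2⟩ ⟨y, Y, rfl, h2'⟩
    refine ⟨x + y, X + Y, ?_, fun d₀ d τ f hf => ?_⟩
    · unfold Tot
      rw [Matrix.fromBlocks_add, ← Matrix.blockDiagonal_add]
      simp only [add_zero]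
    · obtain ⟨c, hc⟩ := h2 d₀ d τ f hf
      obtain ⟨c', hc'⟩ := h2' d₀ d τ f hf
      exact ⟨c + c', by rw [act_add, LinearMap.add_apply, hc, hc', add_smul]⟩
  smul_mem' := by
    rintro a _ ⟨x, X, rfl, h2⟩
    refine ⟨a • x, a • X, ?_, fun d₀ d τ f hf => ?_⟩
    · unfold Tot
      rw [Matrix.fromBlocks_smul, ← Matrix.blockDiagonal_smul]
      simp only [smul_zero]
    · obtain ⟨c, hc⟩ := h2 d₀ d τ f hf
      exact ⟨a * c, by rw [act_smul, LinearMap.smul_apply, hc, smul_smul]⟩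

variable {φ₀ : Matrix (Fin r₀) (Fin r₀) ℂ} {φ : Fin N → Matrix (Fin n) (Fin n) ℂ}

theorem mtB_lie : Lie' (mtB φ₀ φ) := by
  rintro _ ⟨x, X, rfl, h2⟩ _ ⟨y, Y, rfl, h2'⟩
  refine ⟨x * y - y * x, fun j => X j * Y j - Y j * X j, Tot_br _ _ _ _, fun d₀ d τ f hf => ⟨0, ?_⟩⟩
  obtain ⟨c, hc⟩ := h2 d₀ d τ f hf
  obtain ⟨c', hc'⟩ := h2' d₀ d τ f hf
  rw [← act_br, LinearMap.sub_apply, Module.End.mul_apply, Module.End.mul_apply, hc, hc', map_smul, map_smul, hc, hc',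
    smul_smul, smul_smul, mul_comm, sub_self, zero_smul]

theorem mtB_rat : DefOver K₀ (mtB φ₀ φ) := by
  refine rat_of ?_
  rintro μ _ ⟨x, X, rfl, h2⟩
  refine ⟨mapQ μ x, fun j => mapQ μ (X j), mapQ_Tot _ _ _, fun d₀ d τ f hf => ?_⟩
  obtain ⟨c, hc⟩ := h2 d₀ d τ f hf
  refine ⟨((μ c : ℚ) : ℂ), ?_⟩
  funext u v
  rw [mapQ_act, hc]
  show (((μ (c * (f u v : ℂ))) : ℚ) : ℂ) = ((μ c : ℚ) : ℂ) * (f u v : ℂ)
  rw [mu_mul, Rat.cast_mul]

theorem mtB_phi : Tot φ₀ φ ∈ mtB φ₀ φ :=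
  ⟨φ₀, φ, rfl, fun _ _ _ _ ⟨q, hq⟩ => ⟨q, hq⟩⟩

/-- a perfect Lie algebra which multiplies a tensor by scalars kills it -/
theorem killB_perf {𝔪 : Submodule ℂ (Matrix (Fin n) (Fin n) ℂ)} {τ : Fin d → Fin N} {f : Ten ℂ d₀ d r₀ n} {j : Fin N}
    (hperf : Prf 𝔪) (h : ∀ X ∈ 𝔪, ∃ c : ℂ, one τ f j X = c • f) : ∀ X ∈ 𝔪, one τ f j X = 0 := by
  have key : 𝔪 ≤ LinearMap.ker (one τ f j) := by
    refine hperf.trans (Submodule.span_le.2 ?_)
    rintro _ ⟨X, hX, Y, hY, rfl⟩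
    rw [SetLike.mem_coe, LinearMap.mem_ker]
    obtain ⟨c, hc⟩ := h X hX
    obtain ⟨c', hc'⟩ := h Y hY
    have h1 := act_br (K := ℂ) (d₀ := d₀) (r₀ := r₀) τ 0 0 (Pi.single j X) (Pi.single j Y)
    have h2 : (fun i => (Pi.single j X : Fin N → Matrix (Fin n) (Fin n) ℂ) i * (Pi.single j Y : Fin N → _) i -
        (Pi.single j Y : Fin N → _) i * (Pi.single j X : Fin N → _) i) = Pi.single j (X * Y - Y * X) := by
      funext i
      by_cases h : i = j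
      · subst h
        rw [Pi.single_eq_same, Pi.single_eq_same, Pi.single_eq_same]
      · rw [Pi.single_eq_of_ne h, Pi.single_eq_of_ne h, Pi.single_eq_of_ne h, Matrix.mul_zero, sub_zero]
    rw [h2, Matrix.mul_zero, sub_zero] at h1
    have h3 := congrArg (fun T : Module.End ℂ (Ten ℂ d₀ d r₀ n) => T f) h1
    simp only [LinearMap.sub_apply, Module.End.mul_apply] at h3
    rw [one_apply'] at hc hc'
    rw [hc, hc', map_smul, map_smul, hc, hc', smul_smul, smul_smul, mul_comm, sub_self] at h3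
    exact h3.symm
  exact fun X hX => LinearMap.mem_ker.1 (key hX)

/-- Hodge tensors on the good blocks are invariant -/
theorem killB {𝔪 : Submodule ℂ (Matrix (Fin n) (Fin n) ℂ)} {R : Finset (Fin N)} (hperf : Prf 𝔪) (hR : LH (mtB φ₀ φ) 𝔪 R)
    {τ : Fin d → Fin N} {f : Ten ℚ d₀ d r₀ n} (hτ : ∀ l, τ l ∈ R) (hf : ∃ q : ℤ, act τ φ₀ φ (tC f) = (q : ℂ) • tC f)
    (j : Fin N) : ∀ X ∈ 𝔪, one τ (tC f) j X = 0 := by
  by_cases hj : j ∈ R
  · refine killB_perf hperf fun X hX => ?_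
    obtain ⟨Z, -, ⟨x, X', he, h2⟩, h3, h4⟩ := hR j hj X hX
    obtain ⟨hx, hX'⟩ := Tot_inj he
    obtain ⟨c, hc⟩ := h2 d₀ d τ f hf
    refine ⟨c, ?_⟩
    rw [← hc, one_apply', ← hx, ← hX']
    funext u v
    rw [act_apply, act_apply]
    congr 1
    refine Finset.sum_congr rfl fun l _ => ?_
    by_cases hl : τ l = j
    · rw [hl, Pi.single_eq_same, h3]
    · rw [Pi.single_eq_of_ne hl, h4 _ (hτ l) hl]
  · intro X hX
    funext u v
    rw [one_sum]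
    refine Finset.sum_eq_zero fun l _ => ?_
    rw [if_neg]
    rintro rfl
    exact hj (hτ l)

/-- the action changes by the sum of the actions of the differences -/
theorem act_diff (τ : Fin d → Fin N) (x : Matrix (Fin r₀) (Fin r₀) ℂ) (X Y : Fin N → Matrix (Fin n) (Fin n) ℂ)
    (f : Ten ℂ d₀ d r₀ n) : act τ x X f = act τ x Y f + ∑ j, one τ f j (X j - Y j) := by
  funext u v
  rw [Pi.add_apply, Pi.add_apply, Finset.sum_apply, Finset.sum_apply, act_apply, act_apply, add_assoc]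
  congr 1
  have h1 : ∀ j, one τ f j (X j - Y j) u v = ∑ l, if τ l = j then ∑ a, (X j - Y j) (v l) a * f u (Function.update v l a) else 0 :=
    fun j => one_sum j _ u v
  have h2 : ∑ j, one τ f j (X j - Y j) u v = ∑ l, ∑ a, (X (τ l) - Y (τ l)) (v l) a * f u (Function.update v l a) := by
    rw [Finset.sum_congr rfl fun j _ => h1 j, Finset.sum_comm]
    refine Finset.sum_congr rfl fun l _ => ?_
    rw [Finset.sum_ite_eq Finset.univ (τ l), if_pos (Finset.mem_univ _)]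
  rw [h2, ← Finset.sum_add_distrib]
  refine Finset.sum_congr rfl fun l _ => ?_
  rw [← Finset.sum_add_distrib]
  refine Finset.sum_congr rfl fun a _ => ?_
  rw [Matrix.sub_apply]
  ring

/-- **the Hodge tensors are the invariant tensors which are Hodge tensors for the operator `φc`** -/
theorem hodge_iff {𝔪 : Submodule ℂ (Matrix (Fin n) (Fin n) ℂ)} {R : Finset (Fin N)} (hperf : Prf 𝔪)
    (hR : LH (mtB φ₀ φ) 𝔪 R) {φc : Matrix (Fin n) (Fin n) ℂ} (hc : ∀ j, φ j - φc ∈ 𝔪) {τ : Fin d → Fin N}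
    {f : Ten ℚ d₀ d r₀ n} (hτ : ∀ l, τ l ∈ R) :
    (∃ q : ℤ, act τ φ₀ φ (tC f) = (q : ℂ) • tC f) ↔
      (∃ q : ℤ, act τ φ₀ (fun _ => φc) (tC f) = (q : ℂ) • tC f) ∧ ∀ j, ∀ X ∈ 𝔪, one τ (tC f) j X = 0 := by
  constructor
  · intro hf
    have hk := killB hperf hR hτ hf
    refine ⟨?_, hk⟩
    obtain ⟨q, hq⟩ := hf
    refine ⟨q, ?_⟩
    rw [act_diff τ φ₀ φ fun _ => φc, Finset.sum_eq_zero fun j _ => hk j _ (hc j), add_zero] at hq
    exact hq
  · rintro ⟨⟨q, hq⟩, hk⟩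
    refine ⟨q, ?_⟩
    rw [act_diff τ φ₀ φ fun _ => φc, Finset.sum_eq_zero fun j _ => hk j _ (hc j), add_zero]
    exact hq

/-- the sum of perfect Lie algebras is perfect -/
theorem Prf_iSup {k : ℕ} {𝔦 : Fin k → Submodule ℂ (Matrix (Fin n) (Fin n) ℂ)} (h : ∀ l, Prf (𝔦 l)) : Prf (⨆ l, 𝔦 l) := by
  refine iSup_le fun l => (h l).trans (Submodule.span_mono ?_)
  rintro _ ⟨X, hX, Y, hY, rfl⟩
  exact ⟨X, Submodule.mem_iSup_of_mem l hX, Y, Submodule.mem_iSup_of_mem l hY, rfl⟩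

end Pool.Agent.Helper880_EX
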