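import Pool.Agent.Helper880_EX.Smp
import Pool.Agent.Helper880_AJ.Cnt

/-!
# One Lie algebra for several blocks
-/

set_option autoImplicit false
set_option linter.unusedSectionVars false
set_option linter.unusedVariables false

open Matrix Module

namespace Pool.Agent.Helper880_EX

open Pool.Agent.Helper880_R3 (Ix Tot Tot_mul Tot_inj ib ib_apply ib_mul)
open Pool.Agent.Helper880_ZP
open Pool.Agent.Helper880_HC (mapQ mapQ_Tot mu_mul Tot_sub)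

variable {n N r₀ : ℕ}

theorem Tot_add' {k : ℕ} (x y : Matrix (Fin r₀) (Fin r₀) ℂ) (Z Z' : Fin k → Matrix (Fin n) (Fin n) ℂ) :
    Tot (x + y) (Z + Z') = Tot x Z + Tot y Z' := by
  unfold Tot
  rw [fromBlocks_add, ← blockDiagonal_add]
  simp only [add_zero]

theorem Tot_smul' {k : ℕ} (c : ℂ) (x : Matrix (Fin r₀) (Fin r₀) ℂ) (Z : Fin k → Matrix (Fin n) (Fin n) ℂ) :
    Tot (c • x) (c • Z) = c • Tot x Z := by
  unfold Tot
  rw [fromBlocks_smul, ← blockDiagonal_smul]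
  simp only [smul_zero]

/-- the block matrices `x ⊕ X_1 ⊕ … ⊕ X_N` with `x ⊕ X_j ∈ 𝔥_j` -/
def prH (𝔥 : Fin N → Submodule ℂ (Matrix (Ix r₀ n 1) (Ix r₀ n 1) ℂ)) : Submodule ℂ (Matrix (Ix r₀ n N) (Ix r₀ n N) ℂ) where
  carrier := {Y | ∃ (x : Matrix (Fin r₀) (Fin r₀) ℂ) (X : Fin N → Matrix (Fin n) (Fin n) ℂ), Y = Tot x X ∧
    ∀ j, Tot x (fun _ : Fin 1 => X j) ∈ 𝔥 j}
  zero_mem' := ⟨0, 0, Tot_zero.symm, fun j => by
    have h : Tot (0 : Matrix (Fin r₀) (Fin r₀) ℂ) (fun _ : Fin 1 => (0 : Fin N → Matrix (Fin n) (Fin n) ℂ) j) = 0 := Tot_zero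
    rw [h]
    exact Submodule.zero_mem _⟩
  add_mem' := by
    rintro _ _ ⟨x, X, rfl, h⟩ ⟨y, Y, rfl, h'⟩
    refine ⟨x + y, X + Y, (Tot_add' _ _ _ _).symm, fun j => ?_⟩
    have h1 := Submodule.add_mem _ (h j) (h' j)
    rw [← Tot_add'] at h1
    exact h1
  smul_mem' := by
    rintro c _ ⟨x, X, rfl, h⟩
    refine ⟨c • x, c • X, (Tot_smul' _ _ _).symm, fun j => ?_⟩
    have h1 := Submodule.smul_mem _ c (h j)
    rw [← Tot_smul'] at h1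
    exact h1

variable {𝔥 : Fin N → Submodule ℂ (Matrix (Ix r₀ n 1) (Ix r₀ n 1) ℂ)}

theorem prH_lie (h : ∀ j, Lie' (𝔥 j)) : Lie' (prH 𝔥) := by
  rintro _ ⟨x, X, rfl, h1⟩ _ ⟨y, Y, rfl, h2⟩
  refine ⟨x * y - y * x, fun j => X j * Y j - Y j * X j, Tot_br _ _ _ _, fun j => ?_⟩
  have h3 := h j _ (h1 j) _ (h2 j)
  rw [Tot_br] at h3
  exact h3

theorem prH_rat (h : ∀ j, DefOver K₀ (𝔥 j)) : DefOver K₀ (prH 𝔥) := by
  refine rat_of ?_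
  rintro μ _ ⟨x, X, rfl, h1⟩
  refine ⟨mapQ μ x, fun j => mapQ μ (X j), mapQ_Tot _ _ _, fun j => ?_⟩
  have h3 := mapQ_mem (h j) μ (h1 j)
  rw [mapQ_Tot] at h3
  exact h3

/-- a block which can be lifted -/
theorem prH_of {j : Fin N} {Z : Fin N → Matrix (Fin n) (Fin n) ℂ} (h : Tot 0 Z ∈ prH 𝔥) :
    Tot 0 (fun _ : Fin 1 => Z j) ∈ 𝔥 j := by
  obtain ⟨x, X, h1, h2⟩ := h
  obtain ⟨hx, hX⟩ := Tot_inj h1
  rw [hx, hX]
  exact h2 j

end Pool.Agent.Helper880_EX
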